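import Mathlib

/-!
# Smooth cell functions with prescribed weighted norm
-/

open MeasureTheory Set Filter Topology
open scoped Interval ContDiff

namespace H87GP

lemma exists_bump {a b τ : ℝ} (hτ : 0 < τ) (hτ2 : 4 * τ < b - a) :
    ∃ B : ℝ → ℝ, ContDiff ℝ ∞ B ∧ (∀ u, 0 ≤ B u) ∧ (∀ u, B u ≤ 1) ∧ (∀ u, a + 2 * τ ≤ u → u ≤ b - 2 * τ → B u = 1) ∧
      (∀ u, (u ≤ a + τ ∨ b - τ ≤ u) → B u = 0) := by
  let f : ContDiffBump ((a + b) / 2 : ℝ) := ⟨(b - a) / 2 - 2 * τ, (b - a) / 2 - τ, by linarith, by linarith⟩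
  refine ⟨f, f.contDiff, fun u => f.nonneg, fun u => f.le_one, fun u h1 h2 => ?_, fun u h => ?_⟩
  · apply f.one_of_mem_closedBall
    rw [Metric.mem_closedBall, Real.dist_eq, abs_le]
    constructor
    · change -((b - a) / 2 - 2 * τ) ≤ _; linarith
    · change _ ≤ (b - a) / 2 - 2 * τ; linarith
  · apply f.zero_of_le_dist
    rw [Real.dist_eq]
    change (b - a) / 2 - τ ≤ _
    rcases h with h | h
    · rw [abs_of_nonpos (by linarith)]; linarith
    · rw [abs_of_nonneg (by linarith)]; linarith

/-- A smooth function supported inside `(a, b)` with `∫ G²/u = c`, close to a constant. -/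
theorem exists_cellfn {a b c ε : ℝ} (ha : 0 < a) (hab : a < b) (hc : 0 < c) (hε : 0 < ε) :
    ∃ G : ℝ → ℝ, ContDiff ℝ ∞ G ∧ (∀ u, 0 ≤ G u) ∧
      (∃ a' b', a < a' ∧ a' < b' ∧ b' < b ∧ ∀ u, (u ≤ a' ∨ b' ≤ u) → G u = 0) ∧
      (∫ u in a..b, G u ^ 2 / u) = c ∧ (∫ u in a..b, |G u - √(c / Real.log (b / a))|) ≤ ε := by
  set ℓ := Real.log (b / a) with hℓ
  have hb : 0 < b := ha.trans hab
  have hℓ0 : 0 < ℓ := Real.log_pos ((one_lt_div ha).mpr hab)
  set s := √(c / ℓ) with hs
  have hs0 : 0 ≤ s := Real.sqrt_nonneg _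
  have hba : 0 < b - a := by linarith
  have hcont : ContinuousAt (fun x : ℝ => √(c / x)) ℓ := by
    apply ContinuousAt.sqrt
    exact continuousAt_const.div continuousAt_id hℓ0.ne'
  rw [Metric.continuousAt_iff] at hcont
  obtain ⟨κ, hκ, hκ'⟩ := hcont (ε / (2 * (b - a))) (by positivity)
  -- choice of τ
  obtain ⟨τ, hτ0, hτ1, hτ2, hτ3, hτ4⟩ : ∃ τ : ℝ, 0 < τ ∧ 4 * τ < b - a ∧ 4 * τ * 2 / a < κ ∧ 4 * τ * 2 / a < ℓ ∧ s * (4 * τ) ≤ ε / 2 := by
    refine ⟨min (min ((b - a) / 8) (κ * a / 16)) (min (ℓ * a / 16) (ε / (8 * (s + 1)))), ?_, ?_, ?_, ?_, ?_⟩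
    · apply lt_min (lt_min (by positivity) (by positivity)) (lt_min (by positivity) (by positivity))
    · have : min (min ((b - a) / 8) (κ * a / 16)) (min (ℓ * a / 16) (ε / (8 * (s + 1)))) ≤ (b - a) / 8 :=
        (min_le_left _ _).trans (min_le_left _ _)
      linarith
    · have : min (min ((b - a) / 8) (κ * a / 16)) (min (ℓ * a / 16) (ε / (8 * (s + 1)))) ≤ κ * a / 16 :=
        (min_le_left _ _).trans (min_le_right _ _)
      rw [div_lt_iff₀ ha]
      nlinarith [mul_pos hκ ha]
    · have : min (min ((b - a) / 8) (κ * a / 16)) (min (ℓ * a / 16) (ε / (8 * (s + 1)))) ≤ ℓ * a / 16 :=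
        (min_le_right _ _).trans (min_le_left _ _)
      rw [div_lt_iff₀ ha]
      nlinarith [mul_pos hℓ0 ha]
    · have h1 : min (min ((b - a) / 8) (κ * a / 16)) (min (ℓ * a / 16) (ε / (8 * (s + 1)))) ≤ ε / (8 * (s + 1)) :=
        (min_le_right _ _).trans (min_le_right _ _)
      calc s * (4 * min (min ((b - a) / 8) (κ * a / 16)) (min (ℓ * a / 16) (ε / (8 * (s + 1)))))
          ≤ (s + 1) * (4 * (ε / (8 * (s + 1)))) := by
            apply mul_le_mul (by linarith) (by linarith) _ (by positivity)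
            have : 0 < min (min ((b - a) / 8) (κ * a / 16)) (min (ℓ * a / 16) (ε / (8 * (s + 1)))) :=
              lt_min (lt_min (by positivity) (by positivity)) (lt_min (by positivity) (by positivity))
            positivity
        _ = ε / 2 := by field_simp; norm_num
  obtain ⟨B, hBs, hB0, hB1, hBin, hBout⟩ := exists_bump hτ0 hτ1
  have hBc : Continuous B := hBs.continuous
  have hdiv : ∀ g : ℝ → ℝ, Continuous g → ContinuousOn (fun u => g u / u) (uIcc a b) := by
    intro g hg
    apply hg.continuousOn.div continuousOn_id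
    intro u hu
    rw [uIcc_of_le hab.le] at hu
    exact (lt_of_lt_of_le ha hu.1).ne'
  have hiB : IntervalIntegrable (fun u => B u ^ 2 / u) volume a b := (hdiv _ (hBc.pow 2)).intervalIntegrable
  have hi1 : IntervalIntegrable (fun u : ℝ => 1 / u) volume a b := (hdiv _ continuous_const).intervalIntegrable
  have hlog : ∫ u in a..b, 1 / u = ℓ := by
    rw [integral_one_div_of_pos ha hb]
  -- ∫ (1 - B) ≤ 4 τ
  have hshort : ∫ u in a..b, (1 - B u) ≤ 4 * τ := by
    have hi : ∀ x y : ℝ, IntervalIntegrable (fun u => 1 - B u) volume x y :=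
      fun x y => (continuous_const.sub hBc).intervalIntegrable _ _
    rw [← intervalIntegral.integral_add_adjacent_intervals (hi a (a + 2 * τ)) (hi (a + 2 * τ) b),
      ← intervalIntegral.integral_add_adjacent_intervals (hi (a + 2 * τ) (b - 2 * τ)) (hi (b - 2 * τ) b)]
    have h1 : ∫ u in a..(a + 2 * τ), (1 - B u) ≤ 2 * τ := by
      calc ∫ u in a..(a + 2 * τ), (1 - B u) ≤ ∫ u in a..(a + 2 * τ), (1 : ℝ) :=
            intervalIntegral.integral_mono_on (by linarith) (hi _ _) (by simp) (fun u _ => by have := hB0 u; linarith)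
        _ = 2 * τ := by simp
    have h2 : ∫ u in (b - 2 * τ)..b, (1 - B u) ≤ 2 * τ := by
      calc ∫ u in (b - 2 * τ)..b, (1 - B u) ≤ ∫ u in (b - 2 * τ)..b, (1 : ℝ) :=
            intervalIntegral.integral_mono_on (by linarith) (hi _ _) (by simp) (fun u _ => by have := hB0 u; linarith)
        _ = 2 * τ := by simp
    have h3 : ∫ u in (a + 2 * τ)..(b - 2 * τ), (1 - B u) = 0 := by
      rw [intervalIntegral.integral_congr (g := fun _ => (0 : ℝ))]
      · simp
      · intro u hu
        rw [uIcc_of_le (by linarith)] at hu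
        simp only
        rw [hBin u hu.1 hu.2, sub_self]
    linarith
  set I := ∫ u in a..b, B u ^ 2 / u with hI
  have hIle : I ≤ ℓ := by
    rw [← hlog]
    apply intervalIntegral.integral_mono_on hab.le hiB hi1
    intro u hu
    apply div_le_div_of_nonneg_right _ (lt_of_lt_of_le ha hu.1).le
    exact pow_le_one₀ (hB0 u) (hB1 u)
  have hIge : ℓ - 4 * τ * 2 / a ≤ I ∧ ℓ - 4 * τ * 2 / a ≤ I := by
    have h1 : ℓ - I = ∫ u in a..b, (1 / u - B u ^ 2 / u) := by
      rw [intervalIntegral.integral_sub hi1 hiB, hlog]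
    have h2 : ∫ u in a..b, (1 / u - B u ^ 2 / u) ≤ ∫ u in a..b, (2 / a) * (1 - B u) := by
      apply intervalIntegral.integral_mono_on hab.le (hi1.sub hiB)
      · exact (continuous_const.mul (continuous_const.sub hBc)).intervalIntegrable _ _
      · intro u hu
        have hu0 : 0 < u := lt_of_lt_of_le ha hu.1
        have e : 1 / u - B u ^ 2 / u = (1 + B u) * (1 - B u) / u := by field_simp; ring
        rw [e, div_le_iff₀ hu0]
        have h3 : 0 ≤ 1 - B u := by linarith [hB1 u]
        have h4 : 1 ≤ u / a := (one_le_div ha).mpr hu.1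
        calc (1 + B u) * (1 - B u) ≤ 2 * (1 - B u) * 1 := by nlinarith [hB1 u]
          _ ≤ 2 * (1 - B u) * (u / a) := mul_le_mul_of_nonneg_left h4 (by positivity)
          _ = 2 / a * (1 - B u) * u := by ring
    rw [intervalIntegral.integral_const_mul] at h2
    have h5 : 2 / a * ∫ u in a..b, (1 - B u) ≤ 2 / a * (4 * τ) := mul_le_mul_of_nonneg_left hshort (by positivity)
    have h6 : 2 / a * (4 * τ) = 4 * τ * 2 / a := by ring
    constructor <;> linarith
  have hI0 : 0 < I := by linarith [hIge.1]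
  have hIκ : |√(c / I) - s| < ε / (2 * (b - a)) := by
    have := @hκ' I (by rw [Real.dist_eq, abs_lt]; constructor <;> linarith [hIge.1])
    rwa [Real.dist_eq] at this
  set r := √(c / I) with hr
  have hr0 : 0 ≤ r := Real.sqrt_nonneg _
  refine ⟨fun u => r * B u, contDiff_const.mul hBs, fun u => mul_nonneg hr0 (hB0 u),
    ⟨a + τ, b - τ, by linarith, by linarith, by linarith, fun u hu => by simp only; rw [hBout u hu, mul_zero]⟩, ?_, ?_⟩
  · have e : ∀ u, (r * B u) ^ 2 / u = (c / I) * (B u ^ 2 / u) := by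
      intro u
      rw [mul_pow, hr, Real.sq_sqrt (by positivity)]
      ring
    simp_rw [e]
    rw [intervalIntegral.integral_const_mul, ← hI]
    field_simp
  · have h1 : ∫ u in a..b, |r * B u - s| ≤ ∫ u in a..b, (|r - s| + s * (1 - B u)) := by
      apply intervalIntegral.integral_mono_on hab.le
      · exact ((continuous_const.mul hBc).sub continuous_const).abs.intervalIntegrable _ _
      · exact (continuous_const.add (continuous_const.mul (continuous_const.sub hBc))).intervalIntegrable _ _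
      · intro u _
        have e : r * B u - s = (r - s) * B u - s * (1 - B u) := by ring
        rw [e]
        refine (abs_sub _ _).trans (add_le_add ?_ ?_)
        · rw [abs_mul, abs_of_nonneg (hB0 u)]
          exact mul_le_of_le_one_right (abs_nonneg _) (hB1 u)
        · rw [abs_of_nonneg (mul_nonneg hs0 (by linarith [hB1 u]))]
    have hia : IntervalIntegrable (fun _ : ℝ => |r - s|) volume a b := continuous_const.intervalIntegrable _ _
    have hib : IntervalIntegrable (fun u : ℝ => s * (1 - B u)) volume a b :=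
      (continuous_const.mul (continuous_const.sub hBc)).intervalIntegrable _ _
    rw [intervalIntegral.integral_add hia hib, intervalIntegral.integral_const,
      intervalIntegral.integral_const_mul, smul_eq_mul] at h1
    have h2 : (b - a) * |r - s| ≤ ε / 2 := by
      calc (b - a) * |r - s| ≤ (b - a) * (ε / (2 * (b - a))) := mul_le_mul_of_nonneg_left hIκ.le hba.le
        _ = ε / 2 := by field_simp
    have h3 : s * ∫ u in a..b, (1 - B u) ≤ s * (4 * τ) := mul_le_mul_of_nonneg_left hshort hs0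
    exact h1.trans (by linarith)

end H87GP
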