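import Mathlib
import Pool.Agent.H87.GP.Cell

/-!
# The limit of the discrete functional

Cells `((j-1)η, jη)`, `1 ≤ j ≤ N`, `η = (1/2 - 1/N)/N`; cell functions with `∫ G_j²/u = 1/j`.
-/

open MeasureTheory Set Filter Topology
open scoped Interval ContDiff

namespace H87GP

/-- the mesh `(1/2 - 1/N)/N` -/
noncomputable def mesh (N : ℕ) : ℝ := (1 / 2 - 1 / N) / N

/-- admissible cell functions -/
structure IsCells (N : ℕ) (G : ℕ → ℝ → ℝ) : Prop where
  smooth : ∀ j ∈ Finset.Icc 1 N, ContDiff ℝ ∞ (G j)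
  nonneg : ∀ j ∈ Finset.Icc 1 N, ∀ u, 0 ≤ G j u
  supp : ∀ j ∈ Finset.Icc 1 N, ∃ a b, 0 < a ∧ ((j : ℝ) - 1) * mesh N < a ∧ a < b ∧ b < j * mesh N ∧
    ∀ u, (u ≤ a ∨ b ≤ u) → G j u = 0
  norm : ∀ j ∈ Finset.Icc 1 N, ∫ u, G j u ^ 2 / u = 1 / (j : ℝ)

/-- left endpoint of the support of the cell `j` -/
noncomputable def lft (η : ℝ) (j : ℕ) : ℝ := if j = 1 then η / Real.exp 1 else ((j : ℝ) - 1) * η

lemma lft_pos {η : ℝ} (hη : 0 < η) {j : ℕ} (hj : 1 ≤ j) : 0 < lft η j := by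
  unfold lft
  split_ifs with h
  · positivity
  · have : (2 : ℝ) ≤ j := by exact_mod_cast (by omega : 2 ≤ j)
    exact mul_pos (by linarith) hη

lemma lft_lt {η : ℝ} (hη : 0 < η) (j : ℕ) : lft η j < j * η := by
  unfold lft
  split_ifs with h
  · subst h
    rw [Nat.cast_one, one_mul, div_lt_iff₀ (Real.exp_pos 1)]
    have : 1 < Real.exp 1 := by
      have := Real.add_one_lt_exp (x := 1) one_ne_zero
      linarith
    nlinarith
  · nlinarith

lemma le_lft {η : ℝ} (hη : 0 < η) (j : ℕ) : ((j : ℝ) - 1) * η ≤ lft η j := by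
  unfold lft
  split_ifs with h
  · subst h
    simp
    positivity
  · exact le_rfl

/-- the size of the cell function -/
noncomputable def gg (η : ℝ) (j : ℕ) : ℝ := √((1 / (j : ℝ)) / Real.log (j * η / lft η j))

lemma gg_bound {η : ℝ} (hη : 0 < η) {j : ℕ} (hj : 1 ≤ j) : |gg η j - 1| ≤ 1 / j := by
  have hj0 : (0 : ℝ) < j := by exact_mod_cast hj
  unfold gg lft
  split_ifs with h
  · subst h
    have e : ((1 : ℕ) : ℝ) * η / (η / Real.exp 1) = Real.exp 1 := by
      rw [Nat.cast_one, one_mul]; field_simp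
    rw [e, Real.log_exp]
    simp
  · have h2 : (2 : ℝ) ≤ j := by exact_mod_cast (by omega : 2 ≤ j)
    have hj1 : (0 : ℝ) < j - 1 := by linarith
    have e : (j : ℝ) * η / ((j - 1) * η) = j / (j - 1) := by field_simp
    rw [e]
    have hlo : 1 / (j : ℝ) ≤ Real.log (j / (j - 1)) := by
      have h3 := Real.one_sub_inv_le_log_of_pos (x := (j : ℝ) / (j - 1)) (by positivity)
      have e2 : 1 - ((j : ℝ) / (j - 1))⁻¹ = 1 / j := by field_simp; ring
      rw [e2] at h3; exact h3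
    have hhi : Real.log (j / (j - 1)) ≤ 1 / ((j : ℝ) - 1) := by
      have h3 := Real.log_le_sub_one_of_pos (x := (j : ℝ) / (j - 1)) (by positivity)
      have e2 : (j : ℝ) / (j - 1) - 1 = 1 / (j - 1) := by field_simp; ring
      rw [e2] at h3; exact h3
    have hl0 : 0 < Real.log (j / (j - 1)) := lt_of_lt_of_le (by positivity) hlo
    set q := (1 / (j : ℝ)) / Real.log (j / (j - 1)) with hq
    have hq1 : q ≤ 1 := by rw [hq, div_le_one hl0]; exact hlo
    have hq2 : 1 - 1 / (j : ℝ) ≤ q := by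
      rw [hq, le_div_iff₀ hl0]
      calc (1 - 1 / (j : ℝ)) * Real.log (j / (j - 1)) ≤ (1 - 1 / (j : ℝ)) * (1 / ((j : ℝ) - 1)) := by
            apply mul_le_mul_of_nonneg_left hhi
            rw [sub_nonneg, div_le_one hj0]; linarith
        _ = 1 / j := by field_simp
    have hq0 : 0 ≤ q := by positivity
    have hs1 : √q ≤ 1 := Real.sqrt_le_one.mpr hq1
    have hs2 : q ≤ √q := by
      nlinarith [Real.sq_sqrt hq0, Real.sqrt_nonneg q]
    rw [abs_le]
    constructor <;> linarith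

/-- one cell -/
lemma cell_term {η : ℝ} (hη : 0 < η) {j : ℕ} (hj : 1 ≤ j) {ψ K : ℝ → ℝ} (hψ : Continuous ψ) (hK : Continuous K)
    {M C e σ : ℝ} (hM : ∀ u, 0 ≤ u → u ≤ j * η → |ψ u| ≤ M) (hC : 1 ≤ C) (hσC : |σ| ≤ C) (hKC : ∀ u, 0 ≤ u → u ≤ j * η → |K u| ≤ C)
    (he : ∀ u, ((j : ℝ) - 1) * η ≤ u → u ≤ j * η → |σ - K u| ≤ e)
    {G : ℝ → ℝ} (hG : Continuous G) {ε : ℝ} (hε : (∫ u in (lft η j)..(j * η), |G u - gg η j|) ≤ ε)
    (hG0 : ∀ u, u ≤ lft η j ∨ j * η ≤ u → G u = 0) :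
    |σ * (∫ u, G u * ψ u) - ∫ u in (((j : ℝ) - 1) * η)..(j * η), K u * ψ u| ≤ C * M * ε + 2 * C * M * (η / j) + e * M * η := by
  have hj0 : (0 : ℝ) < j := by exact_mod_cast hj
  have hj1 : (1 : ℝ) ≤ j := by exact_mod_cast hj
  set a := lft η j with ha
  set b := (j : ℝ) * η with hb
  have hb0 : 0 < b := by positivity
  have ha0 : 0 < a := lft_pos hη hj
  have hab : a < b := lft_lt hη j
  have ha' : ((j : ℝ) - 1) * η ≤ a := le_lft hη j
  have haa0 : 0 ≤ ((j : ℝ) - 1) * η := mul_nonneg (by linarith) hη.le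
  have hba : b - a ≤ η := by rw [hb]; linarith
  have hM0 : 0 ≤ M := (abs_nonneg _).trans (hM 0 le_rfl hb0.le)
  have hC0 : 0 ≤ C := by linarith
  have he0 : 0 ≤ e := (abs_nonneg _).trans (he b (by linarith) le_rfl)
  have e1 : ∫ u, G u * ψ u = ∫ u in a..b, G u * ψ u := by
    rw [intervalIntegral.integral_of_le hab.le]
    symm
    apply setIntegral_eq_integral_of_forall_compl_eq_zero
    intro u hu
    rw [hG0 u, zero_mul]
    rw [mem_Ioc, not_and_or, not_lt, not_le] at hu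
    rcases hu with h | h
    · exact Or.inl h
    · exact Or.inr h.le
  have hi : ∀ f : ℝ → ℝ, Continuous f → ∀ x y, IntervalIntegrable f volume x y := fun f hf x y => hf.intervalIntegrable _ _
  have e2 : ∫ u in (((j : ℝ) - 1) * η)..b, K u * ψ u
      = (∫ u in (((j : ℝ) - 1) * η)..a, K u * ψ u) + ∫ u in a..b, K u * ψ u := by
    rw [intervalIntegral.integral_add_adjacent_intervals (hi (fun u => K u * ψ u) (hK.mul hψ) _ _) (hi (fun u => K u * ψ u) (hK.mul hψ) _ _)]
  have e3 : σ * (∫ u in a..b, G u * ψ u) - ∫ u in a..b, K u * ψ u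
      = σ * (∫ u in a..b, (G u - gg η j) * ψ u) + σ * ((gg η j - 1) * ∫ u in a..b, ψ u) + ∫ u in a..b, (σ - K u) * ψ u := by
    have h1 : ∫ u in a..b, (G u - gg η j) * ψ u = (∫ u in a..b, G u * ψ u) - gg η j * ∫ u in a..b, ψ u := by
      rw [← intervalIntegral.integral_const_mul, ← intervalIntegral.integral_sub (hi (fun u => G u * ψ u) (hG.mul hψ) _ _) (hi (fun u => gg η j * ψ u) (continuous_const.mul hψ) _ _)]
      congr 1; ext u; ring
    have h2 : ∫ u in a..b, (σ - K u) * ψ u = σ * (∫ u in a..b, ψ u) - ∫ u in a..b, K u * ψ u := by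
      rw [← intervalIntegral.integral_const_mul, ← intervalIntegral.integral_sub (hi (fun u => σ * ψ u) (continuous_const.mul hψ) _ _) (hi (fun u => K u * ψ u) (hK.mul hψ) _ _)]
      congr 1; ext u; ring
    rw [h1, h2]; ring
  have hψb : ∀ u ∈ Set.Icc a b, |ψ u| ≤ M := fun u hu => hM u (ha0.le.trans hu.1) hu.2
  -- term 1
  have t1 : |σ * (∫ u in a..b, (G u - gg η j) * ψ u)| ≤ C * M * ε := by
    have h1 : |∫ u in a..b, (G u - gg η j) * ψ u| ≤ M * ε := by
      refine (intervalIntegral.abs_integral_le_integral_abs hab.le).trans ?_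
      calc ∫ u in a..b, |(G u - gg η j) * ψ u| ≤ ∫ u in a..b, M * |G u - gg η j| := by
            apply intervalIntegral.integral_mono_on hab.le (hi (fun u => |(G u - gg η j) * ψ u|) ((hG.sub continuous_const).mul hψ).abs _ _)
              (hi (fun u => M * |G u - gg η j|) (continuous_const.mul (hG.sub continuous_const).abs) _ _)
            intro u hu
            rw [abs_mul, mul_comm]
            exact mul_le_mul_of_nonneg_right (hψb u hu) (abs_nonneg _)
        _ = M * ∫ u in a..b, |G u - gg η j| := intervalIntegral.integral_const_mul _ _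
        _ ≤ M * ε := mul_le_mul_of_nonneg_left hε hM0
    rw [abs_mul]
    calc |σ| * |∫ u in a..b, (G u - gg η j) * ψ u| ≤ C * (M * ε) :=
          mul_le_mul hσC h1 (abs_nonneg _) hC0
      _ = C * M * ε := by ring
  have hψint : |∫ u in a..b, ψ u| ≤ M * η := by
    have h := intervalIntegral.norm_integral_le_of_norm_le_const (f := ψ) (C := M) (a := a) (b := b) (by
      intro u hu
      rw [Set.uIoc_of_le hab.le] at hu
      exact hψb u ⟨hu.1.le, hu.2⟩)
    rw [Real.norm_eq_abs, abs_of_pos (by linarith : 0 < b - a)] at h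
    exact h.trans (mul_le_mul_of_nonneg_left hba hM0)
  have t2 : |σ * ((gg η j - 1) * ∫ u in a..b, ψ u)| ≤ C * M * (η / j) := by
    rw [abs_mul, abs_mul]
    calc |σ| * (|gg η j - 1| * |∫ u in a..b, ψ u|) ≤ C * (1 / j * (M * η)) := by
          apply mul_le_mul hσC _ (by positivity) hC0
          exact mul_le_mul (gg_bound hη hj) hψint (abs_nonneg _) (by positivity)
      _ = C * M * (η / j) := by ring
  have t3 : |∫ u in a..b, (σ - K u) * ψ u| ≤ e * M * η := by
    have h := intervalIntegral.norm_integral_le_of_norm_le_const (f := fun u => (σ - K u) * ψ u) (C := e * M) (a := a) (b := b) (by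
      intro u hu
      rw [Set.uIoc_of_le hab.le] at hu
      rw [Real.norm_eq_abs, abs_mul]
      exact mul_le_mul (he u (ha'.trans hu.1.le) hu.2) (hψb u ⟨hu.1.le, hu.2⟩) (abs_nonneg _) he0)
    rw [Real.norm_eq_abs, abs_of_pos (by linarith : 0 < b - a)] at h
    exact h.trans (mul_le_mul_of_nonneg_left hba (by positivity))
  have t4 : |∫ u in (((j : ℝ) - 1) * η)..a, K u * ψ u| ≤ C * M * (η / j) := by
    have h := intervalIntegral.norm_integral_le_of_norm_le_const (f := fun u => K u * ψ u) (C := C * M)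
      (a := ((j : ℝ) - 1) * η) (b := a) (by
      intro u hu
      rw [Set.uIoc_of_le ha'] at hu
      have h1 : 0 ≤ u := haa0.trans hu.1.le
      have h2 : u ≤ b := hu.2.trans hab.le
      rw [Real.norm_eq_abs, abs_mul]
      exact mul_le_mul (hKC u h1 h2) (hM u h1 h2) (abs_nonneg _) hC0)
    rw [Real.norm_eq_abs, abs_of_nonneg (by linarith : 0 ≤ a - ((j : ℝ) - 1) * η)] at h
    refine h.trans (mul_le_mul_of_nonneg_left ?_ (by positivity))
    rw [ha]
    unfold lft
    split_ifs with h1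
    · rw [h1]
      simp only [Nat.cast_one, sub_self, zero_mul, sub_zero, div_one]
      apply div_le_self hη.le
      exact Real.one_le_exp (by norm_num)
    · rw [sub_self]; positivity
  rw [e1, e2]
  have e4 : σ * (∫ u in a..b, G u * ψ u) - ((∫ u in (((j : ℝ) - 1) * η)..a, K u * ψ u) + ∫ u in a..b, K u * ψ u)
      = σ * (∫ u in a..b, (G u - gg η j) * ψ u) + σ * ((gg η j - 1) * ∫ u in a..b, ψ u) + (∫ u in a..b, (σ - K u) * ψ u)
        - ∫ u in (((j : ℝ) - 1) * η)..a, K u * ψ u := by linarith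
  rw [e4]
  rw [abs_le] at *
  constructor <;> linarith [t1.1, t1.2, t2.1, t2.2, t3.1, t3.2, t4.1, t4.2]

lemma mesh_pos {N : ℕ} (hN : 3 ≤ N) : 0 < mesh N := by
  have h : (3 : ℝ) ≤ N := by exact_mod_cast hN
  unfold mesh
  apply div_pos _ (by linarith)
  have : 1 / (N : ℝ) ≤ 1 / 3 := one_div_le_one_div_of_le (by norm_num) h
  linarith

lemma mul_mesh {N : ℕ} (hN : 3 ≤ N) : (N : ℝ) * mesh N = 1 / 2 - 1 / N := by
  have h : (3 : ℝ) ≤ N := by exact_mod_cast hN
  unfold mesh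
  field_simp

lemma mesh_le {N : ℕ} (hN : 3 ≤ N) : mesh N ≤ 1 / (2 * N) := by
  have h : (3 : ℝ) ≤ N := by exact_mod_cast hN
  unfold mesh
  rw [div_le_div_iff₀ (by linarith) (by linarith)]
  have : 0 < 1 / (N : ℝ) := by positivity
  nlinarith

/-- the distance of `2u` and `j/N` in the cell `j` -/
lemma cell_dist {N j : ℕ} (hN : 3 ≤ N) (hj : 1 ≤ j) (hjN : j ≤ N) {u : ℝ} (h1 : ((j : ℝ) - 1) * mesh N ≤ u) (h2 : u ≤ j * mesh N) :
    0 ≤ u ∧ 2 * u ≤ 1 ∧ |(j : ℝ) / N - 2 * u| ≤ 3 / N := by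
  have h : (3 : ℝ) ≤ N := by exact_mod_cast hN
  have hN0 : (0 : ℝ) < N := by linarith
  have hj1 : (1 : ℝ) ≤ j := by exact_mod_cast hj
  have hjN' : (j : ℝ) ≤ N := by exact_mod_cast hjN
  have hm := mesh_pos hN
  have hmm := mul_mesh hN
  have hinv : 0 < 1 / (N : ℝ) := by positivity
  have e : (N : ℝ) * (1 / N) = 1 := by field_simp
  have e2 : (j : ℝ) / N = j * (1 / N) := by ring
  have em : mesh N = (1 / 2 - 1 / N) * (1 / N) := by unfold mesh; ring
  have e3 : (3 : ℝ) / N = 3 * (1 / N) := by ring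
  set x : ℝ := 1 / N with hx
  refine ⟨(mul_nonneg (by linarith) hm.le).trans h1, ?_, ?_⟩
  · have : (j : ℝ) * mesh N ≤ N * mesh N := mul_le_mul_of_nonneg_right hjN' hm.le
    linarith
  · rw [abs_le, e2, e3]
    rw [em] at h1 h2
    have hjx : (j : ℝ) * x ≤ 1 := by rw [← e]; exact mul_le_mul_of_nonneg_right hjN' hinv.le
    constructor
    · nlinarith
    · nlinarith

/-- **The limit of the discrete functional.** -/
theorem flim {K : ℝ → ℝ} (hK : Continuous K) {Λ : ℝ}
    (hΛ : ∀ x y : ℝ, 0 ≤ x → x ≤ 1 → 0 ≤ y → y ≤ 1 → |K x - K y| ≤ Λ * |x - y|)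
    {s : ℕ → ℕ → ℝ} (hs : ∀ ε > 0, ∃ N0 : ℕ, ∀ N ≥ N0, ∀ j ≤ N, |s N j - K (j / N)| ≤ ε)
    {ψ : ℝ → ℝ} (hψ : Continuous ψ) {ε : ℝ} (hε : 0 < ε) :
    ∃ N0 : ℕ, ∀ N ≥ N0, ∃ G : ℕ → ℝ → ℝ, IsCells N G ∧
      |∑ j ∈ Finset.Icc 1 N, s N j * (∫ u, G j u * ψ u) - ∫ u in (0 : ℝ)..(1 / 2), K (2 * u) * ψ u| ≤ ε := by
  have hΛ0 : 0 ≤ Λ := by
    have := hΛ 1 0 (by norm_num) (by norm_num) (by norm_num) (by norm_num)
    simp at this
    exact (abs_nonneg _).trans this
  obtain ⟨M, hM⟩ := isCompact_Icc.exists_bound_of_continuousOn (s := Set.Icc (0 : ℝ) (1 / 2)) hψ.continuousOn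
  obtain ⟨C0, hC0⟩ := isCompact_Icc.exists_bound_of_continuousOn (s := Set.Icc (0 : ℝ) 1) hK.continuousOn
  have hM0 : 0 ≤ M := (norm_nonneg _).trans (hM 0 (by norm_num))
  have hC00 : 0 ≤ C0 := (norm_nonneg _).trans (hC0 0 (by norm_num))
  set C := C0 + 1 with hC
  set ε1 := min 1 (ε / (C * M + M + 1)) with hε1
  have hε10 : 0 < ε1 := lt_min one_pos (by positivity)
  have hε1a : ε1 ≤ 1 := min_le_left _ _
  have hε1b : (C * M + M) * ε1 ≤ ε := by
    calc (C * M + M) * ε1 ≤ (C * M + M + 1) * (ε / (C * M + M + 1)) :=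
          mul_le_mul (by linarith) (min_le_right _ _) hε10.le (by positivity)
      _ = ε := mul_div_cancel₀ ε (by positivity)
  obtain ⟨N1, hN1⟩ := hs ε1 hε10
  have htend : Tendsto (fun N : ℕ => (3 * Λ * M / 2 + 2 * C * M) / (N : ℝ) + C * M * (Real.log N / N)) atTop (𝓝 0) := by
    have h1 : Tendsto (fun N : ℕ => (3 * Λ * M / 2 + 2 * C * M) / (N : ℝ)) atTop (𝓝 0) := tendsto_const_div_atTop_nhds_zero_nat _
    have h2 : Tendsto (fun N : ℕ => Real.log N / (N : ℝ)) atTop (𝓝 0) :=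
      Real.isLittleO_log_id_atTop.tendsto_div_nhds_zero.comp tendsto_natCast_atTop_atTop
    simpa using h1.add (h2.const_mul (C * M))
  obtain ⟨N2, hN2⟩ := eventually_atTop.mp (htend.eventually (ge_mem_nhds (show (0 : ℝ) < ε / 2 by positivity)))
  refine ⟨max 3 (max N1 N2), fun N hN => ?_⟩
  have hN3 : 3 ≤ N := (le_max_left _ _).trans hN
  have hNN1 : N1 ≤ N := (le_max_left _ _).trans ((le_max_right _ _).trans hN)
  have hNN2 : N2 ≤ N := (le_max_right _ _).trans ((le_max_right _ _).trans hN)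
  have hNr : (3 : ℝ) ≤ N := by exact_mod_cast hN3
  have hN0 : (0 : ℝ) < N := by linarith
  set η := mesh N with hη
  have hη0 : 0 < η := mesh_pos hN3
  have hNη := mul_mesh hN3
  have hηle := mesh_le hN3
  rw [← hη] at hNη hηle
  -- the cells
  have hcell : ∀ j : ℕ, 1 ≤ j → ∃ G : ℝ → ℝ, ContDiff ℝ ∞ G ∧ (∀ u, 0 ≤ G u) ∧
      (∃ a' b', lft η j < a' ∧ a' < b' ∧ b' < j * η ∧ ∀ u, (u ≤ a' ∨ b' ≤ u) → G u = 0) ∧
      (∫ u in (lft η j)..(j * η), G u ^ 2 / u) = 1 / (j : ℝ) ∧ (∫ u in (lft η j)..(j * η), |G u - gg η j|) ≤ ε1 * η := by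
    intro j hj
    have hj0 : (0 : ℝ) < j := by exact_mod_cast hj
    exact exists_cellfn (lft_pos hη0 hj) (lft_lt hη0 j) (by positivity) (by positivity)
  choose! G hG1 hG2 hG3 hG4 hG5 using hcell
  refine ⟨G, ⟨?_, ?_, ?_, ?_⟩, ?_⟩
  · intro j hj
    exact hG1 j (Finset.mem_Icc.mp hj).1
  · intro j hj
    exact hG2 j (Finset.mem_Icc.mp hj).1
  · intro j hj
    have hj1 := (Finset.mem_Icc.mp hj).1
    obtain ⟨a', b', h1, h2, h3, h4⟩ := hG3 j hj1
    exact ⟨a', b', (lft_pos hη0 hj1).trans h1, lt_of_le_of_lt (le_lft hη0 j) h1, h2, h3, h4⟩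
  · intro j hj
    have hj1 := (Finset.mem_Icc.mp hj).1
    rw [← hG4 j hj1, intervalIntegral.integral_of_le (lft_lt hη0 j).le]
    symm
    apply setIntegral_eq_integral_of_forall_compl_eq_zero
    intro u hu
    obtain ⟨a', b', h1, h2, h3, h4⟩ := hG3 j hj1
    rw [h4 u, zero_pow (by norm_num), zero_div]
    rw [mem_Ioc, not_and_or, not_lt, not_le] at hu
    rcases hu with h | h
    · exact Or.inl (h.trans h1.le)
    · exact Or.inr (h3.le.trans h.le)
  · -- the estimate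
    have hsC : ∀ j ≤ N, |s N j| ≤ C := by
      intro j hj
      have h1 := hN1 N hNN1 j hj
      have h2 : |K ((j : ℝ) / N)| ≤ C0 := hC0 _ ⟨by positivity, by rw [div_le_one hN0]; exact_mod_cast hj⟩
      calc |s N j| = |(s N j - K ((j : ℝ) / N)) + K ((j : ℝ) / N)| := by ring_nf
        _ ≤ ε1 + C0 := (abs_add_le _ _).trans (add_le_add h1 h2)
        _ ≤ C := by rw [hC]; linarith
    have hterm : ∀ j ∈ Finset.Icc 1 N, |s N j * (∫ u, G j u * ψ u) - ∫ u in (((j : ℝ) - 1) * η)..(j * η), K (2 * u) * ψ u|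
        ≤ C * M * (ε1 * η) + 2 * C * M * (η / j) + (ε1 + Λ * (3 / N)) * M * η := by
      intro j hj
      obtain ⟨hj1, hjN⟩ := Finset.mem_Icc.mp hj
      have hj0 : (0 : ℝ) < j := by exact_mod_cast hj1
      have hjη : (j : ℝ) * η ≤ 1 / 2 := by
        have : (j : ℝ) * η ≤ N * η := mul_le_mul_of_nonneg_right (by exact_mod_cast hjN) hη0.le
        have : 0 < 1 / (N : ℝ) := by positivity
        linarith
      apply cell_term hη0 hj1 hψ (K := fun u => K (2 * u)) (hK.comp (continuous_const.mul continuous_id))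
        (fun u h1 h2 => hM u ⟨h1, h2.trans hjη⟩) (by rw [hC]; linarith) (hsC j hjN)
        (fun u h1 h2 => (hC0 (2 * u) ⟨by linarith, by linarith⟩).trans (by rw [hC]; linarith)) _ (hG1 j hj1).continuous (hG5 j hj1)
      · intro u hu
        obtain ⟨a', b', h1, h2, h3, h4⟩ := hG3 j hj1
        apply h4
        rcases hu with h | h
        · exact Or.inl (h.trans h1.le)
        · exact Or.inr (h3.le.trans h)
      · intro u h1 h2
        obtain ⟨d1, d2, d3⟩ := cell_dist hN3 hj1 hjN h1 h2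
        have d4 := hN1 N hNN1 j hjN
        have d5 : |K ((j : ℝ) / N) - K (2 * u)| ≤ Λ * (3 / N) :=
          (hΛ _ _ (by positivity) (by rw [div_le_one hN0]; exact_mod_cast hjN) (by linarith) d2).trans
            (mul_le_mul_of_nonneg_left d3 hΛ0)
        calc |s N j - K (2 * u)| = |(s N j - K ((j : ℝ) / N)) + (K ((j : ℝ) / N) - K (2 * u))| := by ring_nf
          _ ≤ _ := (abs_add_le _ _).trans (add_le_add d4 d5)
    have hi : ∀ x y : ℝ, IntervalIntegrable (fun u => K (2 * u) * ψ u) volume x y := fun x y =>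
      ((hK.comp (continuous_const.mul continuous_id)).mul hψ).intervalIntegrable _ _
    have hsplit : ∫ u in (0 : ℝ)..(1 / 2), K (2 * u) * ψ u
        = (∑ j ∈ Finset.Icc 1 N, ∫ u in (((j : ℝ) - 1) * η)..(j * η), K (2 * u) * ψ u)
          + ∫ u in ((N : ℝ) * η)..(1 / 2), K (2 * u) * ψ u := by
      have h1 := intervalIntegral.sum_integral_adjacent_intervals (f := fun u => K (2 * u) * ψ u) (μ := volume)
        (a := fun n : ℕ => (n : ℝ) * η) (n := N) (fun k _ => hi _ _)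
      rw [Nat.cast_zero, zero_mul] at h1
      have h2 : ∑ j ∈ Finset.Icc 1 N, ∫ u in (((j : ℝ) - 1) * η)..(j * η), K (2 * u) * ψ u
          = ∑ k ∈ Finset.range N, ∫ u in ((k : ℝ) * η)..(((k + 1 : ℕ) : ℝ) * η), K (2 * u) * ψ u := by
        have h3 : Finset.Icc 1 N = Finset.Ico (0 + 1) (N + 1) := by
          ext x; simp only [Finset.mem_Icc, Finset.mem_Ico]; omega
        rw [h3, ← Finset.sum_Ico_add' (fun k : ℕ => ∫ u in (((k : ℝ) - 1) * η)..((k : ℝ) * η), K (2 * u) * ψ u) 0 N 1,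
          Finset.range_eq_Ico]
        apply Finset.sum_congr rfl
        intro k _
        push_cast
        rw [add_sub_cancel_right]
      rw [h2, h1, intervalIntegral.integral_add_adjacent_intervals (hi _ _) (hi _ _)]
    have hlast : |∫ u in ((N : ℝ) * η)..(1 / 2), K (2 * u) * ψ u| ≤ C * M * (1 / N) := by
      have h := intervalIntegral.norm_integral_le_of_norm_le_const (f := fun u => K (2 * u) * ψ u) (C := C * M)
        (a := (N : ℝ) * η) (b := 1 / 2) (by
        intro u hu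
        have hle : (N : ℝ) * η ≤ 1 / 2 := by
          have : 0 < 1 / (N : ℝ) := by positivity
          linarith
        rw [Set.uIoc_of_le hle] at hu
        have h0 : 0 ≤ u := (by positivity : 0 ≤ (N : ℝ) * η).trans hu.1.le
        rw [Real.norm_eq_abs, abs_mul]
        exact mul_le_mul ((hC0 (2 * u) ⟨by linarith, by linarith [hu.2]⟩).trans (by rw [hC]; linarith)) (hM u ⟨h0, hu.2⟩)
          (abs_nonneg _) (by positivity))
      rw [Real.norm_eq_abs] at h
      have e : |1 / 2 - (N : ℝ) * η| = 1 / N := by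
        rw [hNη]
        rw [show (1 : ℝ) / 2 - (1 / 2 - 1 / N) = 1 / N by ring, abs_of_pos (by positivity)]
      rw [e] at h
      exact h
    have hsum : |∑ j ∈ Finset.Icc 1 N, (s N j * (∫ u, G j u * ψ u) - ∫ u in (((j : ℝ) - 1) * η)..(j * η), K (2 * u) * ψ u)|
        ≤ (C * M * ε1 + (ε1 + Λ * (3 / N)) * M) * (N * η) + 2 * C * M * (η * (1 + Real.log N)) := by
      refine (Finset.abs_sum_le_sum_abs _ _).trans ((Finset.sum_le_sum hterm).trans ?_)
      rw [Finset.sum_add_distrib, Finset.sum_add_distrib, Finset.sum_const, Finset.sum_const, Nat.card_Icc, ← Finset.mul_sum]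
      simp only [Nat.add_sub_cancel, nsmul_eq_mul]
      have h1 : ∑ j ∈ Finset.Icc 1 N, η / (j : ℝ) ≤ η * (1 + Real.log N) := by
        have h2 := harmonic_le_one_add_log N
        rw [harmonic_eq_sum_Icc] at h2
        push_cast at h2
        have h3 : ∑ j ∈ Finset.Icc 1 N, η / (j : ℝ) = η * ∑ j ∈ Finset.Icc 1 N, (j : ℝ)⁻¹ := by
          rw [Finset.mul_sum]; rfl
        rw [h3]
        exact mul_le_mul_of_nonneg_left h2 hη0.le
      have h4 : 2 * C * M * ∑ j ∈ Finset.Icc 1 N, η / (j : ℝ) ≤ 2 * C * M * (η * (1 + Real.log N)) :=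
        mul_le_mul_of_nonneg_left h1 (by positivity)
      calc (N : ℝ) * (C * M * (ε1 * η)) + 2 * C * M * ∑ j ∈ Finset.Icc 1 N, η / (j : ℝ) + N * ((ε1 + Λ * (3 / N)) * M * η)
          ≤ (N : ℝ) * (C * M * (ε1 * η)) + 2 * C * M * (η * (1 + Real.log N)) + N * ((ε1 + Λ * (3 / N)) * M * η) := by linarith
        _ = _ := by ring
    rw [hsplit]
    rw [Finset.sum_sub_distrib] at hsum
    have hlogN : 0 ≤ Real.log N := Real.log_nonneg (by linarith)
    have b1 : (C * M * ε1 + (ε1 + Λ * (3 / N)) * M) * (N * η) ≤ ε / 2 + 3 * Λ * M / 2 / N := by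
      have h1 : (N : ℝ) * η ≤ 1 / 2 := by
        have : 0 < 1 / (N : ℝ) := by positivity
        linarith
      calc (C * M * ε1 + (ε1 + Λ * (3 / N)) * M) * (N * η) ≤ (C * M * ε1 + (ε1 + Λ * (3 / N)) * M) * (1 / 2) :=
            mul_le_mul_of_nonneg_left h1 (by positivity)
        _ = ((C * M + M) * ε1) / 2 + 3 * Λ * M / 2 / N := by ring
        _ ≤ _ := by linarith
    have b2 : 2 * C * M * (η * (1 + Real.log N)) ≤ C * M / N + C * M * (Real.log N / N) := by
      calc 2 * C * M * (η * (1 + Real.log N)) ≤ 2 * C * M * (1 / (2 * N) * (1 + Real.log N)) := by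
            apply mul_le_mul_of_nonneg_left _ (by positivity)
            exact mul_le_mul_of_nonneg_right hηle (by positivity)
        _ = _ := by field_simp
    have b3 := hN2 N hNN2
    have b4 : (3 * Λ * M / 2 + 2 * C * M) / (N : ℝ) = 3 * Λ * M / 2 / N + 2 * (C * M / N) := by ring
    rw [b4] at b3
    have b5 : C * M * (1 / (N : ℝ)) = C * M / N := by ring
    rw [b5] at hlast
    rw [abs_le] at hsum hlast ⊢
    constructor <;> linarith [hsum.1, hsum.2, hlast.1, hlast.2]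

end H87GP
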