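import Mathlib

/-!
# Alternating Taylor bounds for sine, cosine and sinc on `[0, ∞)`
-/

open Finset

namespace H87GP

/-- Taylor polynomials of the sine -/
noncomputable def sT (n : ℕ) (x : ℝ) : ℝ :=
  ∑ i ∈ range n, (-1) ^ i * x ^ (2 * i + 1) / ((2 * i + 1).factorial : ℝ)

/-- Taylor polynomials of the cosine -/
noncomputable def cT (n : ℕ) (x : ℝ) : ℝ :=
  ∑ i ∈ range n, (-1) ^ i * x ^ (2 * i) / ((2 * i).factorial : ℝ)

/-- Taylor polynomials of sinc -/
noncomputable def scT (n : ℕ) (x : ℝ) : ℝ :=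
  ∑ i ∈ range n, (-1) ^ i * x ^ (2 * i) / ((2 * i + 1).factorial : ℝ)

lemma hasDerivAt_sT (n : ℕ) (x : ℝ) : HasDerivAt (sT n) (cT n x) x := by
  unfold sT cT
  apply HasDerivAt.fun_sum
  intro i _
  have h := ((hasDerivAt_pow (2 * i + 1) x).const_mul ((-1 : ℝ) ^ i)).div_const ((2 * i + 1).factorial : ℝ)
  refine h.congr_deriv ?_
  rw [Nat.factorial_succ]
  have : ((2 * i).factorial : ℝ) ≠ 0 := by positivity
  push_cast
  have h2 : (2 * (i : ℝ) + 1) ≠ 0 := by positivity
  field_simp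

lemma hasDerivAt_cT (n : ℕ) (x : ℝ) : HasDerivAt (cT (n + 1)) (-sT n x) x := by
  have e : cT (n + 1) = fun x => (∑ i ∈ range n, (-1) ^ (i + 1) * x ^ (2 * (i + 1)) / ((2 * (i + 1)).factorial : ℝ)) + 1 := by
    ext y
    unfold cT
    rw [sum_range_succ']
    simp
  rw [e]
  apply HasDerivAt.add_const
  unfold sT
  rw [← sum_neg_distrib]
  apply HasDerivAt.fun_sum
  intro i _
  have h := ((hasDerivAt_pow (2 * (i + 1)) x).const_mul ((-1 : ℝ) ^ (i + 1))).div_const ((2 * (i + 1)).factorial : ℝ)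
  refine h.congr_deriv ?_
  have e2 : 2 * (i + 1) = (2 * i + 1) + 1 := by ring
  rw [e2, Nat.factorial_succ (2 * i + 1)]
  have : ((2 * i + 1).factorial : ℝ) ≠ 0 := by positivity
  push_cast
  have h2 : (2 * (i : ℝ) + 1 + 1) ≠ 0 := by positivity
  field_simp
  ring

lemma sT_zero (n : ℕ) : sT n 0 = 0 := by
  unfold sT; apply sum_eq_zero; intro i _; simp

lemma cT_zero (n : ℕ) : cT (n + 1) 0 = 1 := by
  unfold cT; rw [sum_range_succ']; simp

lemma nonneg_of_deriv {f g : ℝ → ℝ} (hf : ∀ x, HasDerivAt f (g x) x) (h0 : 0 ≤ f 0) (hg : ∀ x, 0 ≤ x → 0 ≤ g x)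
    {x : ℝ} (hx : 0 ≤ x) : 0 ≤ f x := by
  have hm : MonotoneOn f (Set.Ici 0) := by
    apply monotoneOn_of_deriv_nonneg (convex_Ici 0)
    · exact (fun y _ => (hf y).continuousAt.continuousWithinAt)
    · exact (fun y _ => (hf y).differentiableAt.differentiableWithinAt)
    · intro y hy
      rw [interior_Ici] at hy
      rw [(hf y).deriv]
      exact hg y (le_of_lt hy)
  exact h0.trans (hm (Set.self_mem_Ici) hx hx)

theorem taylor_sign (n : ℕ) : ∀ x : ℝ, 0 ≤ x →
    0 ≤ (-1) ^ (n + 1) * (Real.sin x - sT (n + 1) x) ∧ 0 ≤ (-1) ^ (n + 1) * (Real.cos x - cT (n + 1) x) := by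
  induction n with
  | zero =>
    intro x hx
    have h1 := Real.sin_le hx
    have h2 := Real.cos_le_one x
    constructor
    · simp [sT]; linarith
    · simp [cT]; linarith
  | succ n ih =>
    have hc : ∀ x : ℝ, 0 ≤ x → 0 ≤ (-1) ^ (n + 1 + 1) * (Real.cos x - cT (n + 1 + 1) x) := by
      intro x hx
      refine nonneg_of_deriv (f := fun x => (-1) ^ (n + 1 + 1) * (Real.cos x - cT (n + 1 + 1) x))
        (g := fun x => (-1) ^ (n + 1 + 1) * (-Real.sin x - -sT (n + 1) x)) ?_ ?_ ?_ hx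
      · intro y
        exact ((Real.hasDerivAt_cos y).sub (hasDerivAt_cT (n + 1) y)).const_mul _
      · simp [cT_zero]
      · intro y hy
        have := (ih y hy).1
        have e : (-1 : ℝ) ^ (n + 1 + 1) * (-Real.sin y - -sT (n + 1) y) = (-1) ^ (n + 1) * (Real.sin y - sT (n + 1) y) := by
          rw [pow_succ]; ring
        rw [e]; exact this
    intro x hx
    refine ⟨?_, hc x hx⟩
    refine nonneg_of_deriv (f := fun x => (-1) ^ (n + 1 + 1) * (Real.sin x - sT (n + 1 + 1) x))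
        (g := fun x => (-1) ^ (n + 1 + 1) * (Real.cos x - cT (n + 1 + 1) x)) ?_ ?_ hc hx
    · intro y
      exact ((Real.hasDerivAt_sin y).sub (hasDerivAt_sT (n + 1 + 1) y)).const_mul _
    · simp [sT_zero]

lemma sT_eq (n : ℕ) (x : ℝ) : sT n x = x * scT n x := by
  unfold sT scT
  rw [mul_sum]
  apply sum_congr rfl
  intro i _
  rw [pow_succ]; ring

/-- lower bound, even number of terms -/
theorem scT_le_sinc (m : ℕ) {x : ℝ} (hx : 0 ≤ x) : scT (2 * m + 2) x ≤ Real.sinc x := by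
  rcases hx.eq_or_lt with h | h
  · subst h
    unfold scT
    rw [sum_range_succ']
    simp
  · have h1 := (taylor_sign (2 * m + 1) x hx).1
    have e : (-1 : ℝ) ^ (2 * m + 1 + 1) = 1 := by
      rw [show 2 * m + 1 + 1 = 2 * (m + 1) by ring, pow_mul]; simp
    rw [e, one_mul, show 2 * m + 1 + 1 = 2 * m + 2 by ring, sT_eq] at h1
    rw [Real.sinc_of_ne_zero h.ne', le_div_iff₀ h]
    linarith

/-- upper bound, odd number of terms -/
theorem sinc_le_scT (m : ℕ) {x : ℝ} (hx : 0 ≤ x) : Real.sinc x ≤ scT (2 * m + 1) x := by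
  rcases hx.eq_or_lt with h | h
  · subst h
    unfold scT
    rw [sum_range_succ']
    simp
  · have h1 := (taylor_sign (2 * m) x hx).1
    have e : (-1 : ℝ) ^ (2 * m + 1) = -1 := by
      rw [pow_succ, pow_mul]; simp
    rw [e, sT_eq] at h1
    rw [Real.sinc_of_ne_zero h.ne', div_le_iff₀ h]
    linarith

end H87GP
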