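import Mathlib
import Pool.Agent.H87.GP.Sinc

/-!
# The numerical inequality for large gaps (`λ = 7/2`)
-/

open Finset MeasureTheory
open scoped Interval

namespace H87GP

/-- the limiting autocorrelation for `r = 2`, `f(s) = 1 - 7s/8` -/
noncomputable def KB (w : ℝ) : ℝ := (1 - w) ^ 4 * (53 + 56 * w - 49 * w ^ 2) / 53

lemma KB_nonneg {w : ℝ} (h0 : 0 ≤ w) (h1 : w ≤ 1) : 0 ≤ KB w := by
  unfold KB
  have : 0 ≤ 53 + 56 * w - 49 * w ^ 2 := by nlinarith
  positivity

lemma continuous_KB : Continuous KB := by unfold KB; fun_prop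

lemma continuous_scT (n : ℕ) : Continuous (scT n) := by
  unfold scT
  apply continuous_finsetSum
  intro i _
  fun_prop

/-- moments of `53 K` -/
lemma integral_pow_KB (i : ℕ) : ∫ w in (0 : ℝ)..1, w ^ (2 * i) * KB w
    = (53 / (2 * i + 1) - 156 / (2 * i + 2) + 45 / (2 * i + 3) + 320 / (2 * i + 4) - 465 / (2 * i + 5)
      + 252 / (2 * i + 6) - 49 / (2 * i + 7)) / 53 := by
  have e : ∀ w : ℝ, w ^ (2 * i) * KB w = (1 / 53) * (53 * w ^ (2 * i) - 156 * w ^ (2 * i + 1) + 45 * w ^ (2 * i + 2)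
      + 320 * w ^ (2 * i + 3) - 465 * w ^ (2 * i + 4) + 252 * w ^ (2 * i + 5) - 49 * w ^ (2 * i + 6)) := by
    intro w
    unfold KB
    ring
  simp_rw [e]
  have hi : ∀ (c : ℝ) (k : ℕ), IntervalIntegrable (fun w : ℝ => c * w ^ k) volume 0 1 :=
    fun c k => (by fun_prop : Continuous fun w : ℝ => c * w ^ k).intervalIntegrable _ _
  rw [intervalIntegral.integral_const_mul]
  rw [intervalIntegral.integral_sub, intervalIntegral.integral_add, intervalIntegral.integral_sub,
    intervalIntegral.integral_add, intervalIntegral.integral_add, intervalIntegral.integral_sub]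
  · simp only [intervalIntegral.integral_const_mul, integral_pow]
    push_cast
    simp only [one_pow, ne_eq, Nat.add_eq_zero_iff, OfNat.ofNat_ne_zero, one_ne_zero, and_false, not_false_eq_true,
      zero_pow, sub_zero, Nat.add_eq_zero_iff, mul_eq_zero]
    ring
  all_goals first
    | exact hi _ _
    | exact (by fun_prop : Continuous _).intervalIntegrable _ _

theorem numB : 5 / 2 + 1 / 100 ≤ 14 * ∫ w in (0 : ℝ)..1, Real.sinc (7 * Real.pi / 4 * w) * KB w := by
  have h1 : ∫ w in (0 : ℝ)..1, scT 8 (7 * Real.pi / 4 * w) * KB w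
      ≤ ∫ w in (0 : ℝ)..1, Real.sinc (7 * Real.pi / 4 * w) * KB w := by
    apply intervalIntegral.integral_mono_on (by norm_num)
    · have := continuous_scT 8
      have := continuous_KB
      exact (by fun_prop : Continuous fun w : ℝ => scT 8 (7 * Real.pi / 4 * w) * KB w).intervalIntegrable _ _
    · have := Real.continuous_sinc
      have := continuous_KB
      exact (by fun_prop : Continuous fun w : ℝ => Real.sinc (7 * Real.pi / 4 * w) * KB w).intervalIntegrable _ _
    · intro w hw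
      apply mul_le_mul_of_nonneg_right _ (KB_nonneg hw.1 hw.2)
      exact scT_le_sinc 3 (by have := Real.pi_pos; have := hw.1; positivity)
  have h2 : ∫ w in (0 : ℝ)..1, scT 8 (7 * Real.pi / 4 * w) * KB w
      = ∑ i ∈ range 8, (-1) ^ i * ((49 / 16) * Real.pi ^ 2) ^ i / ((2 * i + 1).factorial : ℝ) *
        ((53 / (2 * i + 1) - 156 / (2 * i + 2) + 45 / (2 * i + 3) + 320 / (2 * i + 4) - 465 / (2 * i + 5)
      + 252 / (2 * i + 6) - 49 / (2 * i + 7)) / 53) := by
    have e : ∀ w : ℝ, scT 8 (7 * Real.pi / 4 * w) * KB w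
        = ∑ i ∈ range 8, ((-1) ^ i * ((49 / 16) * Real.pi ^ 2) ^ i / ((2 * i + 1).factorial : ℝ)) * (w ^ (2 * i) * KB w) := by
      intro w
      unfold scT
      rw [sum_mul]
      apply sum_congr rfl
      intro i _
      rw [pow_mul (7 * Real.pi / 4 * w), pow_mul w]
      rw [show (7 * Real.pi / 4 * w) ^ 2 = (49 / 16 * Real.pi ^ 2) * w ^ 2 by ring, mul_pow]
      ring
    simp_rw [e]
    rw [intervalIntegral.integral_finsetSum]
    · apply sum_congr rfl
      intro i _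
      rw [intervalIntegral.integral_const_mul, integral_pow_KB]
    · intro i _
      have := continuous_KB
      exact (by fun_prop : Continuous fun w : ℝ => ((-1) ^ i * ((49 / 16) * Real.pi ^ 2) ^ i / ((2 * i + 1).factorial : ℝ)) * (w ^ (2 * i) * KB w)).intervalIntegrable _ _
  have hlo : (3.141592 : ℝ) ^ 2 ≤ Real.pi ^ 2 := by
    have := Real.pi_gt_d6; gcongr
  have hhi : Real.pi ^ 2 ≤ (3.141593 : ℝ) ^ 2 := by
    have := Real.pi_lt_d6; have := Real.pi_pos; gcongr
  set p := Real.pi ^ 2 with hp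
  have hp0 : 0 ≤ p := by positivity
  have g2 : (49 / 16 * (3.141592 : ℝ) ^ 2) ^ 2 ≤ (49 / 16 * p) ^ 2 := by gcongr
  have g4 : (49 / 16 * (3.141592 : ℝ) ^ 2) ^ 4 ≤ (49 / 16 * p) ^ 4 := by gcongr
  have g6 : (49 / 16 * (3.141592 : ℝ) ^ 2) ^ 6 ≤ (49 / 16 * p) ^ 6 := by gcongr
  have g1 : (49 / 16 * p) ^ 1 ≤ (49 / 16 * (3.141593 : ℝ) ^ 2) ^ 1 := by gcongr
  have g3 : (49 / 16 * p) ^ 3 ≤ (49 / 16 * (3.141593 : ℝ) ^ 2) ^ 3 := by gcongr
  have g5 : (49 / 16 * p) ^ 5 ≤ (49 / 16 * (3.141593 : ℝ) ^ 2) ^ 5 := by gcongr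
  have g7 : (49 / 16 * p) ^ 7 ≤ (49 / 16 * (3.141593 : ℝ) ^ 2) ^ 7 := by gcongr
  rw [h2] at h1
  simp only [sum_range_succ, range_zero, sum_empty, Nat.factorial] at h1
  norm_num at h1 g1 g2 g3 g4 g5 g6 g7 ⊢
  nlinarith

end H87GP
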