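import Mathlib
import Pool.Agent.H87.GP.NumB

/-!
# The discrete autocorrelation for `r = 2`, `f(s) = 1 - 7s/8` and its limit
-/

open Finset MeasureTheory
open scoped Interval

namespace H87GP

/-- left Riemann sums of Lipschitz functions -/
lemma riemann_sum {g : ℝ → ℝ} (hg : Continuous g) {Λ : ℝ} (hΛ : ∀ x y : ℝ, 0 ≤ x → x ≤ 1 → 0 ≤ y → y ≤ 1 → |g x - g y| ≤ Λ * |x - y|)
    {N M : ℕ} (hN : 1 ≤ N) (hM : M ≤ N) :
    |(1 / (N : ℝ)) * ∑ n ∈ range M, g (n / N) - ∫ x in (0 : ℝ)..(M / N), g x| ≤ Λ / N := by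
  have hN0 : (0 : ℝ) < N := by exact_mod_cast hN
  have hΛ0 : 0 ≤ Λ := by
    have := hΛ 1 0 (by norm_num) (by norm_num) (by norm_num) (by norm_num)
    simp at this
    exact (abs_nonneg _).trans this
  have hint : ∀ a b : ℝ, IntervalIntegrable g volume a b := fun a b => hg.intervalIntegrable a b
  have e1 : ∫ x in (0 : ℝ)..(M / N), g x = ∑ n ∈ range M, ∫ x in ((n : ℝ) / N)..(((n + 1 : ℕ) : ℝ) / N), g x := by
    have := intervalIntegral.sum_integral_adjacent_intervals (f := g) (μ := volume) (a := fun n : ℕ => (n : ℝ) / N) (n := M)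
      (fun k _ => hint _ _)
    rw [this]
    simp
  rw [e1, mul_sum, ← sum_sub_distrib]
  have h2 : ∀ n ∈ range M, |1 / (N : ℝ) * g (n / N) - ∫ x in ((n : ℝ) / N)..(((n + 1 : ℕ) : ℝ) / N), g x| ≤ Λ / N * (1 / N) := by
    intro n hn
    have hn' : n < M := mem_range.mp hn
    have hlen : ((n + 1 : ℕ) : ℝ) / N - (n : ℝ) / N = 1 / N := by push_cast; ring
    have hle : (n : ℝ) / N ≤ ((n + 1 : ℕ) : ℝ) / N := by
      have : (0 : ℝ) < 1 / N := by positivity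
      linarith
    have hn1 : ((n + 1 : ℕ) : ℝ) / N ≤ 1 := by
      rw [div_le_one hN0]
      exact_mod_cast (by omega : n + 1 ≤ N)
    have e2 : 1 / (N : ℝ) * g (n / N) = ∫ x in ((n : ℝ) / N)..(((n + 1 : ℕ) : ℝ) / N), g (n / N) := by
      rw [intervalIntegral.integral_const, hlen, smul_eq_mul]
    rw [e2, ← intervalIntegral.integral_sub (by simp) (hint _ _)]
    have h3 := intervalIntegral.norm_integral_le_of_norm_le_const (f := fun x => g (n / N) - g x) (C := Λ / N)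
      (a := (n : ℝ) / N) (b := ((n + 1 : ℕ) : ℝ) / N) (by
        intro x hx
        rw [Set.uIoc_of_le hle] at hx
        rw [Real.norm_eq_abs]
        have h4 : |(n : ℝ) / N - x| ≤ 1 / N := by
          rw [abs_le]; constructor <;> linarith [hx.1, hx.2]
        have h5 : (0 : ℝ) ≤ (n : ℝ) / N := by positivity
        calc |g (n / N) - g x| ≤ Λ * |(n : ℝ) / N - x| := hΛ _ _ h5 (by linarith) (by linarith [hx.1]) (by linarith [hx.2])
          _ ≤ Λ * (1 / N) := mul_le_mul_of_nonneg_left h4 hΛ0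
          _ = Λ / N := by ring)
    rw [Real.norm_eq_abs, hlen, abs_of_pos (by positivity : (0 : ℝ) < 1 / N)] at h3
    exact h3
  calc |∑ n ∈ range M, (1 / (N : ℝ) * g (n / N) - ∫ x in ((n : ℝ) / N)..(((n + 1 : ℕ) : ℝ) / N), g x)|
      ≤ ∑ n ∈ range M, |1 / (N : ℝ) * g (n / N) - ∫ x in ((n : ℝ) / N)..(((n + 1 : ℕ) : ℝ) / N), g x| := abs_sum_le_sum_abs _ _
    _ ≤ ∑ n ∈ range M, Λ / N * (1 / N) := sum_le_sum h2
    _ = (M / N) * (Λ / N) := by rw [sum_const, card_range, nsmul_eq_mul]; ring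
    _ ≤ 1 * (Λ / N) := by
        apply mul_le_mul_of_nonneg_right _ (by positivity)
        rw [div_le_one hN0]
        exact_mod_cast hM
    _ = Λ / N := one_mul _

/-- the profile `1 - 7s/8` -/
noncomputable def f0 (s : ℝ) : ℝ := 1 - 7 / 8 * s

/-- `S_j = ∑_{n ≤ N - j} binom(n+3, 3) f(n/N) f((n+j)/N)` -/
noncomputable def S4 (N j : ℕ) : ℝ :=
  ∑ n ∈ range (N + 1 - j), ((n + 3).choose 3 : ℝ) * f0 (n / N) * f0 ((n + j : ℕ) / N)

/-- the integrand of the limit -/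
noncomputable def g4 (w u : ℝ) : ℝ := u ^ 3 * f0 u * f0 (u + w)

lemma integral_g4 (w : ℝ) : ∫ u in (0 : ℝ)..(1 - w), g4 w u = 53 / 1920 * KB w := by
  unfold g4 f0 KB
  have e : ∀ u : ℝ, u ^ 3 * (1 - 7 / 8 * u) * (1 - 7 / 8 * (u + w))
      = (1 - 7 / 8 * w) * u ^ 3 - (7 / 8 * (2 - 7 / 8 * w)) * u ^ 4 + 49 / 64 * u ^ 5 := by
    intro u; ring
  simp_rw [e]
  have hi : ∀ (c : ℝ) (k : ℕ), IntervalIntegrable (fun u : ℝ => c * u ^ k) volume 0 (1 - w) :=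
    fun c k => (by fun_prop : Continuous fun u : ℝ => c * u ^ k).intervalIntegrable _ _
  rw [intervalIntegral.integral_add ((hi _ _).sub (hi _ _)) (hi _ _), intervalIntegral.integral_sub (hi _ _) (hi _ _)]
  simp only [intervalIntegral.integral_const_mul, integral_pow]
  norm_num
  ring

lemma choose_three (n : ℕ) : ((n + 3).choose 3 : ℝ) = (n + 1) * (n + 2) * (n + 3) / 6 := by
  induction n with
  | zero => norm_num
  | succ n ih =>
    rw [show n + 1 + 3 = (n + 3) + 1 by ring, Nat.choose_succ_succ' (n + 3) 2, Nat.cast_add, ih, Nat.choose_two_right]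
    have h : ((((n + 3) * (n + 3 - 1)) / 2 : ℕ) : ℝ) = (n + 3) * (n + 2) / 2 := by
      rw [show n + 3 - 1 = n + 2 by omega]
      rw [Nat.cast_div _ (by norm_num)]
      · push_cast; ring
      · have := Nat.even_mul_succ_self (n + 2)
        rw [mul_comm]
        exact this.two_dvd
    rw [h]
    push_cast
    ring

lemma f0_bd {s : ℝ} (h0 : 0 ≤ s) (h1 : s ≤ 1) : 0 ≤ f0 s ∧ f0 s ≤ 1 := by
  unfold f0; constructor <;> linarith

lemma abs_g4_sub {w x y : ℝ} (hw0 : 0 ≤ w) (hw1 : w ≤ 1) (hx0 : 0 ≤ x) (hx1 : x ≤ 1) (hy0 : 0 ≤ y) (hy1 : y ≤ 1) :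
    |g4 w x - g4 w y| ≤ 20 * |x - y| := by
  have e : g4 w x - g4 w y = (x - y) * ((1 - 7 / 8 * w) * (x ^ 2 + x * y + y ^ 2)
      - (7 / 8 * (2 - 7 / 8 * w)) * ((x ^ 2 + y ^ 2) * (x + y)) + 49 / 64 * (x ^ 4 + x ^ 3 * y + x ^ 2 * y ^ 2 + x * y ^ 3 + y ^ 4)) := by
    unfold g4 f0; ring
  rw [e, abs_mul, mul_comm]
  apply mul_le_mul_of_nonneg_right _ (abs_nonneg _)
  have a1 : x ^ 2 ≤ 1 := pow_le_one₀ hx0 hx1
  have a2 : y ^ 2 ≤ 1 := pow_le_one₀ hy0 hy1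
  have a3 : x * y ≤ 1 := mul_le_one₀ hx1 hy0 hy1
  have b1 : 0 ≤ x ^ 2 + x * y + y ^ 2 := by positivity
  have b2 : x ^ 2 + x * y + y ^ 2 ≤ 3 := by linarith
  have b3 : 0 ≤ (x ^ 2 + y ^ 2) * (x + y) := by positivity
  have b4 : (x ^ 2 + y ^ 2) * (x + y) ≤ 4 := by
    calc (x ^ 2 + y ^ 2) * (x + y) ≤ 2 * 2 := by
          apply mul_le_mul (by linarith) (by linarith) (by positivity) (by norm_num)
      _ = 4 := by norm_num
  have b5 : 0 ≤ x ^ 4 + x ^ 3 * y + x ^ 2 * y ^ 2 + x * y ^ 3 + y ^ 4 := by positivity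
  have b6 : x ^ 4 + x ^ 3 * y + x ^ 2 * y ^ 2 + x * y ^ 3 + y ^ 4 ≤ 5 := by
    have c1 : x ^ 4 ≤ 1 := pow_le_one₀ hx0 hx1
    have c2 : y ^ 4 ≤ 1 := pow_le_one₀ hy0 hy1
    have c3 : x ^ 3 * y ≤ 1 := mul_le_one₀ (pow_le_one₀ hx0 hx1) hy0 hy1
    have c4 : x ^ 2 * y ^ 2 ≤ 1 := mul_le_one₀ a1 (by positivity) a2
    have c5 : x * y ^ 3 ≤ 1 := mul_le_one₀ hx1 (by positivity) (pow_le_one₀ hy0 hy1)
    linarith
  have k1 : 0 ≤ 1 - 7 / 8 * w := by linarith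
  have k2 : 1 - 7 / 8 * w ≤ 1 := by linarith
  have k3 : 0 ≤ 7 / 8 * (2 - 7 / 8 * w) := by linarith
  have k4 : 7 / 8 * (2 - 7 / 8 * w) ≤ 2 := by linarith
  have m1 : 0 ≤ (1 - 7 / 8 * w) * (x ^ 2 + x * y + y ^ 2) := mul_nonneg k1 b1
  have m2 : (1 - 7 / 8 * w) * (x ^ 2 + x * y + y ^ 2) ≤ 1 * 3 := mul_le_mul k2 b2 b1 (by norm_num)
  have m3 : 0 ≤ 7 / 8 * (2 - 7 / 8 * w) * ((x ^ 2 + y ^ 2) * (x + y)) := mul_nonneg k3 b3
  have m4 : 7 / 8 * (2 - 7 / 8 * w) * ((x ^ 2 + y ^ 2) * (x + y)) ≤ 2 * 4 := mul_le_mul k4 b4 b3 (by norm_num)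
  rw [abs_le]
  constructor <;> linarith

/-- the normalised discrete autocorrelation converges -/
lemma S4_approx {N j : ℕ} (hN : 1 ≤ N) (hj : j ≤ N) :
    |6 / (N : ℝ) ^ 4 * S4 N j - 53 / 1920 * KB (j / N)| ≤ (100 : ℝ) / N := by
  have hN0 : (0 : ℝ) < N := by exact_mod_cast hN
  have hN1 : (1 : ℝ) ≤ N := by exact_mod_cast hN
  set w : ℝ := j / N with hw
  have hw0 : 0 ≤ w := by positivity
  have hw1 : w ≤ 1 := by rw [hw, div_le_one hN0]; exact_mod_cast hj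
  have hcg : Continuous (g4 w) := by unfold g4 f0; fun_prop
  have hRS := riemann_sum hcg (Λ := 20) (fun x y h1 h2 h3 h4 => abs_g4_sub hw0 hw1 h1 h2 h3 h4) hN (Nat.sub_le N j)
  have e1 : (((N - j : ℕ) : ℝ)) / N = 1 - w := by
    rw [Nat.cast_sub hj, hw]; field_simp
  rw [e1, integral_g4] at hRS
  -- compare the sums
  have e2 : 6 / (N : ℝ) ^ 4 * S4 N j = (1 / (N : ℝ)) * ∑ n ∈ range (N + 1 - j), (((n : ℝ) + 1) * (n + 2) * (n + 3) / N ^ 3) * f0 (n / N) * f0 ((n : ℝ) / N + w) := by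
    unfold S4
    rw [mul_sum, mul_sum]
    apply sum_congr rfl
    intro n _
    rw [choose_three, show (((n + j : ℕ) : ℝ)) / N = (n : ℝ) / N + w by rw [hw]; push_cast; ring]
    field_simp
  have e3 : N + 1 - j = (N - j) + 1 := by omega
  have hterm : ∀ n ∈ range (N + 1 - j), 0 ≤ f0 (n / N) * f0 ((n : ℝ) / N + w) ∧ f0 (n / N) * f0 ((n : ℝ) / N + w) ≤ 1 ∧ (n : ℝ) ≤ N := by
    intro n hn
    have hn' : n + j ≤ N := by have := mem_range.mp hn; omega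
    have h1 : (n : ℝ) + j ≤ N := by exact_mod_cast hn'
    have h2 : (0 : ℝ) ≤ (n : ℝ) / N := by positivity
    have h3 : (n : ℝ) / N + w ≤ 1 := by rw [hw, ← add_div, div_le_one hN0]; exact h1
    have h4 := f0_bd h2 (by linarith)
    have h5 := f0_bd (by positivity : 0 ≤ (n : ℝ) / N + w) h3
    refine ⟨mul_nonneg h4.1 h5.1, mul_le_one₀ h4.2 h5.1 h5.2, ?_⟩
    have : (0 : ℝ) ≤ j := by positivity
    linarith
  have h6 : |(1 / (N : ℝ)) * ∑ n ∈ range (N + 1 - j), (((n : ℝ) + 1) * (n + 2) * (n + 3) / N ^ 3) * f0 (n / N) * f0 ((n : ℝ) / N + w)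
      - (1 / (N : ℝ)) * ∑ n ∈ range (N + 1 - j), g4 w (n / N)| ≤ 46 / N := by
    rw [← mul_sub, ← sum_sub_distrib, abs_mul, abs_of_pos (by positivity : (0 : ℝ) < 1 / N)]
    have h7 : |∑ n ∈ range (N + 1 - j), ((((n : ℝ) + 1) * (n + 2) * (n + 3) / N ^ 3) * f0 (n / N) * f0 ((n : ℝ) / N + w) - g4 w (n / N))|
        ≤ ∑ n ∈ range (N + 1 - j), 23 / (N : ℝ) := by
      refine (abs_sum_le_sum_abs _ _).trans (sum_le_sum fun n hn => ?_)
      obtain ⟨t1, t2, t3⟩ := hterm n hn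
      have e4 : (((n : ℝ) + 1) * (n + 2) * (n + 3) / N ^ 3) * f0 (n / N) * f0 ((n : ℝ) / N + w) - g4 w (n / N)
          = ((6 * (n : ℝ) ^ 2 + 11 * n + 6) / N ^ 3) * (f0 (n / N) * f0 ((n : ℝ) / N + w)) := by
        unfold g4
        field_simp
        ring
      rw [e4, abs_mul, abs_of_nonneg t1, abs_of_nonneg (by positivity)]
      have hn2 : (n : ℝ) ^ 2 ≤ N ^ 2 := by gcongr
      have hn3 : (n : ℝ) ≤ N ^ 2 := by nlinarith
      calc (6 * (n : ℝ) ^ 2 + 11 * n + 6) / N ^ 3 * (f0 (n / N) * f0 ((n : ℝ) / N + w))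
          ≤ (6 * (n : ℝ) ^ 2 + 11 * n + 6) / N ^ 3 * 1 := mul_le_mul_of_nonneg_left t2 (by positivity)
        _ ≤ (23 * N ^ 2) / N ^ 3 := by
            rw [mul_one]
            apply div_le_div_of_nonneg_right _ (by positivity)
            nlinarith
        _ = 23 / N := by field_simp
    have h8 : ∑ n ∈ range (N + 1 - j), 23 / (N : ℝ) ≤ 46 := by
      rw [sum_const, card_range, nsmul_eq_mul]
      have : ((N + 1 - j : ℕ) : ℝ) ≤ 2 * N := by
        have : N + 1 - j ≤ 2 * N := by omega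
        exact_mod_cast this
      calc ((N + 1 - j : ℕ) : ℝ) * (23 / N) ≤ (2 * N) * (23 / N) := mul_le_mul_of_nonneg_right this (by positivity)
        _ = 46 := by field_simp; norm_num
    calc 1 / (N : ℝ) * |∑ n ∈ range (N + 1 - j), ((((n : ℝ) + 1) * (n + 2) * (n + 3) / N ^ 3) * f0 (n / N) * f0 ((n : ℝ) / N + w) - g4 w (n / N))|
        ≤ 1 / (N : ℝ) * 46 := mul_le_mul_of_nonneg_left (h7.trans h8) (by positivity)
      _ = 46 / N := by ring
  have h9 : |(1 / (N : ℝ)) * ∑ n ∈ range (N + 1 - j), g4 w (n / N) - (1 / (N : ℝ)) * ∑ n ∈ range (N - j), g4 w (n / N)| ≤ 1 / N := by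
    rw [e3, sum_range_succ, mul_add, add_sub_cancel_left, abs_mul, abs_of_pos (by positivity : (0 : ℝ) < 1 / N)]
    obtain ⟨t1, t2, t3⟩ := hterm (N - j) (by rw [mem_range]; omega)
    have h10 : |g4 w (((N - j : ℕ) : ℝ) / N)| ≤ 1 := by
      unfold g4
      rw [mul_assoc, abs_mul, abs_of_nonneg t1, abs_of_nonneg (by positivity)]
      apply mul_le_one₀ _ t1 t2
      apply pow_le_one₀ (by positivity)
      rw [div_le_one hN0]
      exact t3
    calc 1 / (N : ℝ) * |g4 w (((N - j : ℕ) : ℝ) / N)| ≤ 1 / (N : ℝ) * 1 := mul_le_mul_of_nonneg_left h10 (by positivity)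
      _ = 1 / N := by ring
  rw [e2]
  have h11 : (46 : ℝ) / N + 1 / N + 20 / N ≤ 100 / N := by
    rw [← add_div, ← add_div]
    apply div_le_div_of_nonneg_right _ hN0.le
    norm_num
  rw [abs_le] at *
  constructor <;> linarith [h6.1, h6.2, h9.1, h9.2, hRS.1, hRS.2]

end H87GP
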