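import Mathlib
import Pool.Agent.H87.GP.Lim4
import Pool.Agent.H87.GP.FLim
import Pool.Agent.H6.Nice

/-!
# The functional for large gaps is below `1`
-/

open MeasureTheory Set Filter Topology
open scoped Interval ContDiff Real
open Pool.Agent.H6

namespace H87GP

lemma KB_lip : ∃ Λ : ℝ, ∀ x y : ℝ, 0 ≤ x → x ≤ 1 → 0 ≤ y → y ≤ 1 → |KB x - KB y| ≤ Λ * |x - y| := by
  have hs : ContDiff ℝ 1 KB := by
    unfold KB
    fun_prop
  obtain ⟨K, hK⟩ := (hs.locallyLipschitz.locallyLipschitzOn (s := Icc (0 : ℝ) 1)).exists_lipschitzOnWith_of_compact isCompact_Icc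
  refine ⟨K, fun x y h1 h2 h3 h4 => ?_⟩
  have := hK.dist_le_mul x ⟨h1, h2⟩ y ⟨h3, h4⟩
  rwa [Real.dist_eq, Real.dist_eq] at this

lemma KB_le_two {w : ℝ} (hw0 : 0 ≤ w) (hw1 : w ≤ 1) : KB w ≤ 2 := by
  unfold KB
  have h4 : (1 - w) ^ 4 ≤ 1 := pow_le_one₀ (by linarith) (by linarith)
  have h5 : 0 ≤ 53 + 56 * w - 49 * w ^ 2 := by nlinarith
  have h6 : 53 + 56 * w - 49 * w ^ 2 ≤ 106 := by nlinarith [sq_nonneg w]
  rw [div_le_iff₀ (by norm_num)]
  calc (1 - w) ^ 4 * (53 + 56 * w - 49 * w ^ 2) ≤ 1 * 106 := mul_le_mul h4 h6 h5 (by norm_num)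
    _ = 2 * 53 := by norm_num

lemma S4_ratio : ∀ ε > 0, ∃ N0 : ℕ, ∀ N ≥ N0, ∀ j ≤ N, |S4 N j / S4 N 0 - KB (j / N)| ≤ ε := by
  intro ε hε
  have htend : Tendsto (fun N : ℕ => (100 : ℝ) / N) atTop (𝓝 0) := tendsto_const_div_atTop_nhds_zero_nat _
  obtain ⟨N0, hN0⟩ := eventually_atTop.mp (htend.eventually (ge_mem_nhds (show (0 : ℝ) < min (1 / 100) (ε / 200) by positivity)))
  refine ⟨max 1 N0, fun N hN j hj => ?_⟩
  have hN1 : 1 ≤ N := (le_max_left _ _).trans hN
  have hNr : (0 : ℝ) < N := by exact_mod_cast hN1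
  have h1 := hN0 N ((le_max_right _ _).trans hN)
  have ha := h1.trans (min_le_left _ _)
  have hb := h1.trans (min_le_right _ _)
  have h2 := S4_approx hN1 hj
  have h3 := S4_approx hN1 (Nat.zero_le N)
  set a := 6 / (N : ℝ) ^ 4 * S4 N j with hadef
  set b := 6 / (N : ℝ) ^ 4 * S4 N 0 with hbdef
  have hK0 : KB ((0 : ℕ) / (N : ℝ)) = 1 := by unfold KB; simp
  rw [hK0] at h3
  have hk : 0 ≤ KB ((j : ℝ) / N) ∧ KB ((j : ℝ) / N) ≤ 2 := by
    have hw0 : (0 : ℝ) ≤ (j : ℝ) / N := by positivity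
    have hw1 : (j : ℝ) / N ≤ 1 := by rw [div_le_one hNr]; exact_mod_cast hj
    exact ⟨KB_nonneg hw0 hw1, KB_le_two hw0 hw1⟩
  have hb0 : 1 / 60 ≤ b := by
    rw [abs_le] at h3
    norm_num at h3 ha ⊢
    linarith [h3.1]
  have e : S4 N j / S4 N 0 = a / b := by
    rw [hadef, hbdef, mul_div_mul_left _ _ (by positivity)]
  rw [e]
  have hbpos : 0 < b := by linarith
  rw [show a / b - KB ((j : ℝ) / N) = (a - KB ((j : ℝ) / N) * b) / b by field_simp, abs_div, abs_of_pos hbpos, div_le_iff₀ hbpos]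
  have e2 : a - KB ((j : ℝ) / N) * b = (a - 53 / 1920 * KB ((j : ℝ) / N)) - KB ((j : ℝ) / N) * (b - 53 / 1920 * 1) := by ring
  rw [e2]
  calc |(a - 53 / 1920 * KB ((j : ℝ) / N)) - KB ((j : ℝ) / N) * (b - 53 / 1920 * 1)|
      ≤ (100 : ℝ) / N + 2 * (100 / N) := by
        refine (abs_sub _ _).trans (add_le_add h2 ?_)
        rw [abs_mul, abs_of_nonneg hk.1]
        exact mul_le_mul hk.2 h3 (abs_nonneg _) (by norm_num)
    _ = 3 * (100 / N) := by ring
    _ ≤ 3 * (ε / 200) := by linarith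
    _ ≤ ε * (1 / 60) := by linarith
    _ ≤ ε * b := mul_le_mul_of_nonneg_left hb0 hε.le

/-- `sin(πλu)/(πu)` -/
noncomputable def snc (l u : ℝ) : ℝ := l * Real.sinc (π * l * u)

lemma continuous_snc (l : ℝ) : Continuous (snc l) := by
  unfold snc
  have := Real.continuous_sinc
  fun_prop

lemma snc_lip (l l' u : ℝ) : |snc l u - snc l' u| ≤ |l - l'| := by
  rcases eq_or_ne u 0 with h | h
  · subst h; unfold snc; simp
  · have hπ := Real.pi_pos
    have e : ∀ l : ℝ, snc l u = Real.sin (π * l * u) / (π * u) := by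
      intro l
      unfold snc
      rcases eq_or_ne l 0 with h0 | h0
      · subst h0; simp
      · rw [Real.sinc_of_ne_zero (by positivity)]
        field_simp
    rw [e, e, ← sub_div, abs_div, div_le_iff₀ (abs_pos.mpr (by positivity))]
    have h1 : |Real.sin (π * l * u) - Real.sin (π * l' * u)| ≤ |π * l * u - π * l' * u| := by
      have := Real.abs_sin_sub_sin_le (π * l * u) (π * l' * u)
      exact this
    rw [show π * l * u - π * l' * u = (l - l') * (π * u) by ring, abs_mul] at h1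
    exact h1

lemma integral_cos_snc {s : ℝ} (u : ℝ) : ∫ x in (-s)..s, Real.cos (2 * π * x * u) = snc (2 * s) u := by
  rcases eq_or_ne u 0 with h | h
  · subst h; unfold snc; simp; ring
  · have hπ := Real.pi_pos
    have hc : (2 * π * u) ≠ 0 := by positivity
    have e : ∀ x : ℝ, Real.cos (2 * π * x * u) = Real.cos ((2 * π * u) * x) := fun x => by ring_nf
    simp_rw [e]
    rw [intervalIntegral.integral_comp_mul_left (fun x => Real.cos x) hc, integral_cos, smul_eq_mul, mul_neg, Real.sin_neg,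
      sub_neg_eq_add]
    unfold snc
    rcases eq_or_ne s 0 with h0 | h0
    · subst h0; simp
    · rw [Real.sinc_of_ne_zero (by positivity)]
      field_simp
      ring_nf

/-- the functional for a smooth majorant of the interval -/
theorem functional_B : ∃ ψ : ℝ → ℝ, Nice ψ ∧ (∀ x, 0 ≤ ψ x) ∧ (∃ lam : ℝ, 7 / 2 < lam ∧ ∀ x, |x| ≤ lam / 2 → ψ x = 1) ∧
    ∃ N0 : ℕ, ∀ N ≥ N0, ∃ G : ℕ → ℝ → ℝ, IsCells N G ∧
      cosT ψ 0 - 8 * ∑ j ∈ Finset.Icc 1 N, S4 N j / S4 N 0 * (∫ u, G j u * cosT ψ u) ≤ 1 - 1 / 1000 := by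

  obtain ⟨ψ, hψ, hψ0, hψ1, hψn, hψle⟩ := exists_nice_plateau (s := 350010 / 200000) (s' := 350020 / 200000) (by norm_num) (by norm_num)
  have hψc := hψ.continuous
  refine ⟨ψ, hψ, hψn, ⟨350010 / 100000, by norm_num, fun x hx => hψ1 x (by linarith)⟩, ?_⟩
  have hcT : Continuous (cosT ψ) := TestFn.continuous_cosT_of_integrable hψ.integrable
  obtain ⟨Λ, hΛ⟩ := KB_lip
  obtain ⟨N0, hN0⟩ := flim continuous_KB hΛ (s := fun N j => S4 N j / S4 N 0) S4_ratio hcT (ε := 1 / 2000) (by norm_num)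
  refine ⟨N0, fun N hN => ?_⟩
  obtain ⟨G, hG, hG2⟩ := hN0 N hN
  refine ⟨G, hG, ?_⟩
  set s' : ℝ := 350020 / 200000 with hs'
  -- the transform of the plateau function
  have hT : ∀ u, cosT ψ u = ∫ x in (-s')..s', ψ x * Real.cos (2 * π * x * u) := by
    intro u
    unfold cosT
    rw [intervalIntegral.integral_of_le (by rw [hs']; norm_num)]
    symm
    apply setIntegral_eq_integral_of_forall_compl_eq_zero
    intro x hx
    rw [hψ0 x, zero_mul]
    rw [mem_Ioc, not_and_or, not_lt, not_le] at hx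
    rcases hx with h | h
    · rw [abs_of_nonpos (by linarith [show (0 : ℝ) < s' by rw [hs']; norm_num])]; linarith
    · rw [abs_of_nonneg (by linarith [show (0 : ℝ) < s' by rw [hs']; norm_num])]; linarith
  have hs0 : (0 : ℝ) < s' := by rw [hs']; norm_num
  have ii : ∀ f : ℝ → ℝ, Continuous f → ∀ x y : ℝ, IntervalIntegrable f volume x y := fun f hf x y => hf.intervalIntegrable _ _
  have hi : ∀ x y : ℝ, IntervalIntegrable (fun u => 1 - ψ u) volume x y :=
    fun x y => (continuous_const.sub hψc).intervalIntegrable _ _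
  have hshort : ∫ x in (-s')..s', (1 - ψ x) ≤ 1 / 5000 := by
    rw [← intervalIntegral.integral_add_adjacent_intervals (hi (-s') (-(350010 / 200000))) (hi (-(350010 / 200000)) s'),
      ← intervalIntegral.integral_add_adjacent_intervals (hi (-(350010 / 200000)) (350010 / 200000)) (hi (350010 / 200000) s')]
    have h1 : ∫ u in (-s')..(-(350010 / 200000)), (1 - ψ u) ≤ 1 / 20000 := by
      calc ∫ u in (-s')..(-(350010 / 200000)), (1 - ψ u) ≤ ∫ u in (-s')..(-(350010 / 200000)), (1 : ℝ) :=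
            intervalIntegral.integral_mono_on (by rw [hs']; norm_num) (hi _ _) (by simp) (fun u _ => by have := hψn u; linarith)
        _ = 1 / 20000 := by rw [hs']; simp; norm_num
    have h2 : ∫ u in (350010 / 200000)..s', (1 - ψ u) ≤ 1 / 20000 := by
      calc ∫ u in (350010 / 200000)..s', (1 - ψ u) ≤ ∫ u in (350010 / 200000)..s', (1 : ℝ) :=
            intervalIntegral.integral_mono_on (by rw [hs']; norm_num) (hi _ _) (by simp) (fun u _ => by have := hψn u; linarith)
        _ = 1 / 20000 := by rw [hs']; simp; norm_num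
    have h3 : ∫ u in (-(350010 / 200000))..(350010 / 200000), (1 - ψ u) = 0 := by
      rw [intervalIntegral.integral_congr (g := fun _ => (0 : ℝ))]
      · simp
      · intro u hu
        rw [uIcc_of_le (by norm_num)] at hu
        simp only
        rw [hψ1 u (by rw [abs_le]; exact ⟨hu.1, hu.2⟩), sub_self]
    linarith
  have hψT : ∀ u, |cosT ψ u - snc (2 * s') u| ≤ 1 / 5000 := by
    intro u
    have hcos : Continuous (fun x : ℝ => Real.cos (2 * π * x * u)) := by fun_prop
    rw [hT, ← integral_cos_snc, ← intervalIntegral.integral_sub (ii (fun x => ψ x * Real.cos (2 * π * x * u)) (hψc.mul hcos) _ _) (ii _ hcos _ _)]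
    refine (intervalIntegral.abs_integral_le_integral_abs (by linarith)).trans (le_trans ?_ hshort)
    apply intervalIntegral.integral_mono_on (by linarith) (ii (fun x => |ψ x * Real.cos (2 * π * x * u) - Real.cos (2 * π * x * u)|) ((hψc.mul hcos).sub hcos).abs _ _) (hi _ _)
    intro x _
    rw [show ψ x * Real.cos (2 * π * x * u) - Real.cos (2 * π * x * u) = -((1 - ψ x) * Real.cos (2 * π * x * u)) by ring, abs_neg,
      abs_mul, abs_of_nonneg (by linarith [hψle x] : 0 ≤ 1 - ψ x)]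
    exact mul_le_of_le_one_right (by linarith [hψle x]) (Real.abs_cos_le_one _)
  -- comparison of the integrals
  have hKc : Continuous (fun u : ℝ => KB (2 * u)) := continuous_KB.comp (continuous_const.mul continuous_id)
  have hcomp : ∀ f g : ℝ → ℝ, Continuous f → Continuous g → ∀ e : ℝ, 0 ≤ e → (∀ u, |f u - g u| ≤ e) →
      |(∫ u in (0 : ℝ)..(1 / 2), KB (2 * u) * f u) - ∫ u in (0 : ℝ)..(1 / 2), KB (2 * u) * g u| ≤ e := by
    intro f g hf hg e he hfg
    rw [← intervalIntegral.integral_sub (ii (fun u => KB (2 * u) * f u) (hKc.mul hf) _ _) (ii (fun u => KB (2 * u) * g u) (hKc.mul hg) _ _)]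
    have h := intervalIntegral.norm_integral_le_of_norm_le_const (f := fun u => KB (2 * u) * f u - KB (2 * u) * g u)
      (C := 2 * e) (a := 0) (b := 1 / 2) (by
      intro u hu
      rw [Set.uIoc_of_le (by norm_num)] at hu
      rw [← mul_sub, Real.norm_eq_abs, abs_mul, abs_of_nonneg (KB_nonneg (by linarith [hu.1]) (by linarith [hu.2]))]
      exact mul_le_mul (KB_le_two (by linarith [hu.1]) (by linarith [hu.2])) (hfg u) (abs_nonneg _) (by norm_num))
    rw [Real.norm_eq_abs] at h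
    refine h.trans ?_
    rw [abs_of_pos (by norm_num : (0 : ℝ) < 1 / 2 - 0)]
    linarith
  have c1 := hcomp (cosT ψ) (snc (2 * s')) hcT (continuous_snc _) (1 / 5000) (by norm_num) hψT
  have c2 := hcomp (snc (2 * s')) (snc (7 / 2)) (continuous_snc _) (continuous_snc _) (1 / 5000) (by norm_num) (fun u =>
    (snc_lip _ _ _).trans (by rw [hs']; norm_num [abs_of_pos]))
  have c3 : 8 * ∫ u in (0 : ℝ)..(1 / 2), KB (2 * u) * snc (7 / 2) u = 14 * ∫ w in (0 : ℝ)..1, Real.sinc (7 * Real.pi / 4 * w) * KB w := by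
    have e : ∀ u : ℝ, KB (2 * u) * snc (7 / 2) u = (fun w => 7 / 2 * (Real.sinc (7 * π / 4 * w) * KB w)) (2 * u) := by
      intro u
      simp only
      unfold snc
      rw [show π * (7 / 2) * u = 7 * π / 4 * (2 * u) by ring]
      ring
    simp_rw [e]
    rw [intervalIntegral.integral_comp_mul_left (fun w => 7 / 2 * (Real.sinc (7 * π / 4 * w) * KB w)) (by norm_num : (2 : ℝ) ≠ 0),
      intervalIntegral.integral_const_mul, smul_eq_mul]
    norm_num
    ring
  have c4 := numB
  have c5 : cosT ψ 0 ≤ 2 * s' + 1 / 5000 := by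
    have h := hψT 0
    have e : snc (2 * s') 0 = 2 * s' := by unfold snc; simp
    rw [e, abs_le] at h
    linarith [h.2]
  rw [abs_le] at c1 c2 hG2
  rw [hs'] at c5
  norm_num at c4 c5 ⊢
  linarith [c1.1, c2.1, hG2.1]

end H87GP
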