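import Mathlib
import Pool.Agent.H87.GP.FB
import Pool.Agent.H14.GP.Defs

/-!
# The functional limit in terms of the definitions of the project
-/

open MeasureTheory Set Filter Topology
open scoped Interval ContDiff Real
open Pool.Agent.H6 Pool.Agent.H14.GP

namespace H87GP

/-- `κ_j = ∫_{x>0} G_j(x) cosT ψ(x) dx` -/
noncomputable def kap (G : ℕ → ℝ → ℝ) (ψ : ℝ → ℝ) (j : ℕ) : ℝ := ∫ x in Ioi (0 : ℝ), G j x * cosT ψ x

/-- the functional -/
noncomputable def JJ (c : ℝ) (R M : ℕ) (f : ℕ → ℝ) (G : ℕ → ℝ → ℝ) (ψ : ℝ → ℝ) : ℝ :=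
  cosT ψ 0 - 4 * c * ∑ j ∈ Finset.range M, kap G ψ j * (KK R M f j / nu R M f)

/-- extension by zero of the cell functions -/
noncomputable def Gx (N : ℕ) (G : ℕ → ℝ → ℝ) (j : ℕ) : ℝ → ℝ := if 1 ≤ j ∧ j ≤ N then G j else fun _ => 0

theorem cells_of {N : ℕ} (hN : 3 ≤ N) {G : ℕ → ℝ → ℝ} (hG : IsCells N G) :
    Cells (N + 1) (((N : ℝ) + 1) * mesh N) (Gx N G) := by
  have h : (3 : ℝ) ≤ N := by exact_mod_cast hN
  have hm := mesh_pos hN
  have hmem : ∀ j, (1 ≤ j ∧ j ≤ N) → j ∈ Finset.Icc 1 N := fun j hj => Finset.mem_Icc.mpr hj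
  -- a common lower bound of the supports
  have hlow : ∃ a, 0 < a ∧ ∀ j ∈ Finset.Icc 1 N, ∀ x, x ≤ a → G j x = 0 := by
    have : ∀ s ⊆ Finset.Icc 1 N, ∃ a, 0 < a ∧ ∀ j ∈ s, ∀ x, x ≤ a → G j x = 0 := by
      intro s
      induction s using Finset.induction_on with
      | empty => intro _; exact ⟨1, one_pos, by simp⟩
      | insert j s hj ih =>
        intro hs
        obtain ⟨a, ha, ha'⟩ := ih (fun x hx => hs (Finset.mem_insert_of_mem hx))
        obtain ⟨a2, b2, h1, _, _, _, h5⟩ := hG.supp j (hs (Finset.mem_insert_self _ _))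
        refine ⟨min a a2, lt_min ha h1, fun i hi x hx => ?_⟩
        rcases Finset.mem_insert.mp hi with rfl | hi
        · exact h5 x (Or.inl (hx.trans (min_le_right _ _)))
        · exact ha' i hi x (hx.trans (min_le_left _ _))
    exact this _ (Finset.Subset.refl _)
  obtain ⟨a, ha, ha'⟩ := hlow
  constructor
  · omega
  · positivity
  · unfold mesh
    rw [← mul_div_assoc, div_lt_iff₀ (by linarith)]
    have e : (N : ℝ) * (1 / N) = 1 := by field_simp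
    have : 0 < 1 / (N : ℝ) := by positivity
    nlinarith
  · intro j
    unfold Gx
    split_ifs with hj
    · exact hG.smooth j (hmem j hj)
    · exact contDiff_const
  · intro j x
    unfold Gx
    split_ifs with hj
    · exact hG.nonneg j (hmem j hj) x
    · exact le_rfl
  · refine ⟨a, ha, fun j x hx => ?_⟩
    unfold Gx
    split_ifs with hj
    · exact ha' j (hmem j hj) x hx
    · rfl
  · intro j x hx
    unfold Gx at hx
    split_ifs at hx with hj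
    · obtain ⟨a2, b2, h1, h2, h3, h4, h5⟩ := hG.supp j (hmem j hj)
      have h6 : a2 < x ∧ x < b2 := by
        by_contra hcon
        apply hx
        apply h5
        rw [not_and_or, not_lt, not_lt] at hcon
        exact hcon
      have e : ((N + 1 : ℕ) : ℝ) = (N : ℝ) + 1 := by push_cast; ring
      rw [e]
      have hN1 : (0 : ℝ) < (N : ℝ) + 1 := by linarith
      constructor
      · rw [show ((N : ℝ) + 1) * mesh N * ((j : ℝ) - 1) / ((N : ℝ) + 1) = ((j : ℝ) - 1) * mesh N by field_simp]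
        exact h2.trans h6.1
      · rw [show ((N : ℝ) + 1) * mesh N * (j : ℝ) / ((N : ℝ) + 1) = (j : ℝ) * mesh N by field_simp]
        exact h6.2.trans h4
    · exact absurd rfl hx
  · intro j hj x
    unfold Gx
    rw [if_neg (by omega)]
  · intro j h1 h2
    have hj : 1 ≤ j ∧ j ≤ N := ⟨h1, by omega⟩
    unfold Gx
    rw [if_pos hj, ← hG.norm j (hmem j hj)]
    apply setIntegral_eq_integral_of_forall_compl_eq_zero
    intro x hx
    rw [ha' j (hmem j hj) x ((not_lt.mp hx).trans ha.le), zero_pow (by norm_num), zero_div]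

lemma kap_eq {N : ℕ} {G : ℕ → ℝ → ℝ} (hG : IsCells N G) (ψ : ℝ → ℝ) {j : ℕ} (hj : j ∈ Finset.Icc 1 N) :
    kap (Gx N G) ψ j = ∫ u, G j u * cosT ψ u := by
  unfold kap Gx
  rw [if_pos (Finset.mem_Icc.mp hj)]
  apply setIntegral_eq_integral_of_forall_compl_eq_zero
  intro x hx
  obtain ⟨a2, b2, h1, h2, h3, h4, h5⟩ := hG.supp j hj
  rw [h5 x (Or.inl ((not_lt.mp hx).trans h1.le)), zero_mul]

lemma kap_zero (N : ℕ) (G : ℕ → ℝ → ℝ) (ψ : ℝ → ℝ) : kap (Gx N G) ψ 0 = 0 := by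
  unfold kap Gx
  rw [if_neg (by omega)]
  simp

lemma sum_kap {N : ℕ} {G : ℕ → ℝ → ℝ} (hG : IsCells N G) (ψ : ℝ → ℝ) (s : ℕ → ℝ) :
    ∑ j ∈ Finset.range (N + 1), kap (Gx N G) ψ j * s j = ∑ j ∈ Finset.Icc 1 N, s j * ∫ u, G j u * cosT ψ u := by
  rw [Finset.range_eq_Ico, Finset.sum_eq_sum_Ico_succ_bot (by omega), kap_zero, zero_mul, zero_add]
  have : Finset.Ico (0 + 1) (N + 1) = Finset.Icc 1 N := by
    ext x; simp only [Finset.mem_Icc, Finset.mem_Ico]; omega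
  rw [this]
  apply Finset.sum_congr rfl
  intro j hj
  rw [kap_eq hG ψ hj, mul_comm]

/-- **The functional limit.** -/
theorem flimJ {K : ℝ → ℝ} (hK : Continuous K) {Λ : ℝ}
    (hΛ : ∀ x y : ℝ, 0 ≤ x → x ≤ 1 → 0 ≤ y → y ≤ 1 → |K x - K y| ≤ Λ * |x - y|)
    {R : ℕ} {f : ℕ → ℕ → ℝ}
    (hs : ∀ ε > 0, ∃ N0 : ℕ, ∀ N ≥ N0, ∀ j ≤ N, |KK R (N + 1) (f N) j / nu R (N + 1) (f N) - K (j / N)| ≤ ε)
    {ψ : ℝ → ℝ} (hψ : Nice ψ) (c : ℝ) {ε : ℝ} (hε : 0 < ε) :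
    ∃ N0 : ℕ, ∀ N ≥ N0, ∃ θ G, Cells (N + 1) θ G ∧
      |JJ c R (N + 1) (f N) G ψ - (cosT ψ 0 - 4 * c * ∫ u in (0 : ℝ)..(1 / 2), K (2 * u) * cosT ψ u)| ≤ ε := by
  have hcT : Continuous (cosT ψ) := TestFn.continuous_cosT_of_integrable hψ.integrable
  obtain ⟨N0, hN0⟩ := flim hK hΛ (s := fun N j => KK R (N + 1) (f N) j / nu R (N + 1) (f N)) hs hcT
    (ε := ε / (4 * |c| + 1)) (by positivity)
  refine ⟨max 3 N0, fun N hN => ?_⟩
  have hN3 : 3 ≤ N := (le_max_left _ _).trans hN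
  obtain ⟨G, hG, hG2⟩ := hN0 N ((le_max_right _ _).trans hN)
  refine ⟨_, Gx N G, cells_of hN3 hG, ?_⟩
  unfold JJ
  rw [sum_kap hG]
  have e : cosT ψ 0 - 4 * c * (∑ j ∈ Finset.Icc 1 N, KK R (N + 1) (f N) j / nu R (N + 1) (f N) * ∫ u, G j u * cosT ψ u)
      - (cosT ψ 0 - 4 * c * ∫ u in (0 : ℝ)..(1 / 2), K (2 * u) * cosT ψ u)
      = -(4 * c) * ((∑ j ∈ Finset.Icc 1 N, KK R (N + 1) (f N) j / nu R (N + 1) (f N) * ∫ u, G j u * cosT ψ u)
        - ∫ u in (0 : ℝ)..(1 / 2), K (2 * u) * cosT ψ u) := by ring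
  rw [e, abs_mul, abs_neg, abs_mul, abs_of_pos (by norm_num : (0 : ℝ) < 4)]
  calc 4 * |c| * _ ≤ (4 * |c| + 1) * (ε / (4 * |c| + 1)) := by
        apply mul_le_mul (by linarith) hG2 (abs_nonneg _) (by positivity)
    _ = ε := mul_div_cancel₀ ε (by positivity)

/-- the profile for large gaps -/
noncomputable def fB (N n : ℕ) : ℝ := f0 (n / N)

lemma KK_fB (N j : ℕ) : KK 4 (N + 1) (fB N) j = S4 N j := by
  unfold Pool.Agent.H14.GP.KK S4 fB rho
  apply Finset.sum_congr rfl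
  intro n _
  rw [show n + 4 - 1 = n + 3 by omega, ← Nat.choose_symm_add (a := n) (b := 3)]
  ring

lemma nu_fB (N : ℕ) : nu 4 (N + 1) (fB N) = S4 N 0 := by
  unfold nu S4 fB rho
  apply Finset.sum_congr rfl
  intro n _
  rw [show n + 4 - 1 = n + 3 by omega, ← Nat.choose_symm_add (a := n) (b := 3)]
  simp only [add_zero]
  ring

/-- **The functional for large gaps is below `1`.** -/
theorem functional_large : ∃ ψ : ℝ → ℝ, Nice ψ ∧ (∀ x, 0 ≤ ψ x) ∧ (∃ lam : ℝ, 7 / 2 < lam ∧ ∀ x, |x| ≤ lam / 2 → ψ x = 1) ∧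
    ∃ (M : ℕ) (θ : ℝ) (G : ℕ → ℝ → ℝ) (f : ℕ → ℝ), Cells M θ G ∧ 0 < nu 4 M f ∧ JJ 2 4 M f G ψ ≤ 1 - 1 / 1000 := by
  obtain ⟨ψ, h1, h2, h3, N0, h4⟩ := functional_B
  refine ⟨ψ, h1, h2, h3, ?_⟩
  set N := max 3 N0 with hN
  have hN3 : 3 ≤ N := le_max_left _ _
  obtain ⟨G, hG, hG2⟩ := h4 N (le_max_right _ _)
  refine ⟨N + 1, _, Gx N G, fB N, cells_of hN3 hG, ?_, ?_⟩
  · unfold nu
    apply Finset.sum_pos'
    · intro n _
      unfold rho
      positivity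
    · refine ⟨0, by simp, ?_⟩
      unfold fB f0 rho
      norm_num
  · unfold JJ
    rw [sum_kap hG]
    have e : (4 : ℝ) * 2 = 8 := by norm_num
    rw [e]
    simp_rw [KK_fB, nu_fB]
    exact hG2

end H87GP
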